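import Pool.Agent.N575.QP_UPJ

/-!
# The joint upper bound of project QP, uniformly in the exponents

`upju` is a form of `S_UPJ` (`Pool/Agent/N906/QP/Stm.lean`, proved in `Pool/Agent/N575/QP_UPJ.lean`)
which is uniform in the exponents `κ`. Written by helper585.
-/

set_option autoImplicit false
set_option linter.unusedSectionVars false

namespace Run7.h585.LD

open NumberField IsDedekindDomain Finset Filter Topology Pool.Agent.H691R3 Pool.Agent.W223.AK
open Pool.Agent.N906.NT (Cx cst)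
open Pool.Agent.N906.KG
open Pool.Agent.N575.QP

variable {K : Type} [Field K] [NumberField K] {q : ℕ}

theorem a1u {z₀ η : ℝ} (hz₀ : 0 < z₀) (hη : 0 < η) :
    ∀ᶠ X : ℝ in atTop, ∀ z : ℝ, z₀ ≤ z → √(8 * (z * (X + 1) / Real.log (z * (X + 1)))) ≤
      (1 + η) * (√z * √(8 * X / Real.log X)) := by
  obtain ⟨δ, hδ⟩ : ∃ δ : ℝ, δ = η / (2 + η) := ⟨_, rfl⟩
  have hδ0 : 0 < δ := by rw [hδ]; positivity
  have hδ1 : δ < 1 := by rw [hδ, div_lt_one (by positivity)]; linarith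
  have hδ2 : 1 + δ = (1 + η) * (1 - δ) := by
    rw [hδ]; field_simp; ring
  filter_upwards [Real.tendsto_log_atTop.eventually_ge_atTop (-Real.log z₀ / δ),
    eventually_ge_atTop (1 / δ), eventually_ge_atTop (1 : ℝ),
    Real.tendsto_log_atTop.eventually_ge_atTop 1] with X h1 h2 h3 h4
  intro z hzz
  have hz : 0 < z := by linarith
  have hX0 : 0 < X := by linarith
  have hl : 0 < Real.log X := by linarith
  have h5 : (1 - δ) * Real.log X ≤ Real.log (z * (X + 1)) := by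
    have h6 : Real.log (z₀ * X) ≤ Real.log (z * (X + 1)) :=
      Real.log_le_log (by positivity) (by nlinarith)
    rw [Real.log_mul hz₀.ne' hX0.ne'] at h6
    rw [div_le_iff₀ hδ0] at h1
    linarith
  have h6 : X + 1 ≤ (1 + δ) * X := by
    rw [div_le_iff₀ hδ0] at h2
    nlinarith
  have h7 : 0 < (1 - δ) * Real.log X := mul_pos (by linarith) hl
  have h8 : z * (X + 1) / Real.log (z * (X + 1)) ≤ (1 + η) * (z * X / Real.log X) := by
    calc z * (X + 1) / Real.log (z * (X + 1)) ≤ z * ((1 + δ) * X) / ((1 - δ) * Real.log X) := by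
          apply div_le_div₀ (by positivity) _ h7 h5
          exact mul_le_mul_of_nonneg_left h6 hz.le
      _ = (1 + η) * (z * X / Real.log X) := by
          have : (1 - δ) ≠ 0 := by linarith
          rw [hδ2]
          field_simp
  have h9 : (1 + η) * (√z * √(8 * X / Real.log X)) = √((1 + η) ^ 2 * (z * (8 * X / Real.log X))) := by
    rw [Real.sqrt_mul (by positivity), Real.sqrt_sq (by positivity), Real.sqrt_mul hz.le]
  rw [h9]
  apply Real.sqrt_le_sqrt
  have h10 : 0 ≤ z * X / Real.log X := by positivity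
  calc 8 * (z * (X + 1) / Real.log (z * (X + 1))) ≤ 8 * ((1 + η) * (z * X / Real.log X)) := by
        linarith
    _ ≤ 8 * ((1 + η) ^ 2 * (z * X / Real.log X)) := by
        apply mul_le_mul_of_nonneg_left _ (by norm_num)
        apply mul_le_mul_of_nonneg_right _ h10
        nlinarith
    _ = _ := by ring

/-- the joint upper bound, uniformly in the exponents -/
theorem upju (K : Type) [Field K] [NumberField K] (q : ℕ) (κ₁ : ℝ) (hq : 1 ≤ q) (hκ₁ : κ₁ ≤ 1)
    (h1 : S_BASQ K) (h2 : S_CELLQ K) (h3 : S_RANK K) (h4 : S_BIGQ K q κ₁)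
    (α : Fin q → K × K) (S : Finset (Pr K)) (δ ε C₀ : ℝ) (hα : Al α) (hS : Gd S α) (hδ0 : 0 < δ)
    (hε : 0 < ε) (hC₀ : 0 ≤ C₀) :
    ∃ X₀ : ℝ, 1 < X₀ ∧ ∀ X : ℝ, X₀ ≤ X → ∀ κ : Fin q → ℝ, (∀ l, 0 ≤ κ l) →
      ∑ l, κ l ≤ κ₁ - δ → ∀ F : Finset K,
      (∀ x ∈ F, Of α x ∧ hr (aff x) ≤ X ∧
        ∃ P, IsP S α x P ∧ ∀ l, rl (P l) ≤ (1 - κ l) * hr (aff x) + C₀) →
      (F.card : ℝ) ≤ Real.exp ((2 - ∑ l, κ l) * X + ∑ l, √(8 * κ l * X / Real.log X) +
        ε * √(X / Real.log X)) := by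
  classical
  have hq0 : (0 : ℝ) < q := by exact_mod_cast hq
  -- constants
  obtain ⟨η, hη⟩ : ∃ η : ℝ, η = min 1 (ε / (42 * q)) := ⟨_, rfl⟩
  have hη0 : 0 < η := by rw [hη]; exact lt_min one_pos (by positivity)
  have hη1 : η ≤ 1 := by rw [hη]; exact min_le_left _ _
  have hη2 : η ≤ ε / (42 * q) := by rw [hη]; exact min_le_right _ _
  have hη3 : 21 * q * η ≤ ε / 2 := by
    rw [le_div_iff₀ (by positivity)] at hη2
    linarith
  have hη4 : ∀ r : ℝ, 0 ≤ r → r ≤ 1 → (1 + η) * ((1 + η) * (r + η)) ≤ r + 7 * η := by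
    intro r hr0 hr1
    have w1 : η * η ≤ η * 1 := mul_le_mul_of_nonneg_left hη1 hη0.le
    have w2 : η * η * η ≤ η * 1 * 1 := by
      apply mul_le_mul w1 hη1 hη0.le (by positivity)
    have w3 : r * η ≤ 1 * η := mul_le_mul_of_nonneg_right hr1 hη0.le
    have w4 : r * η * η ≤ 1 * η * 1 := by
      apply mul_le_mul w3 hη1 hη0.le (by positivity)
    linarith
  obtain ⟨C, hC, hcodes⟩ := codes h1 hq hα hS
  obtain ⟨A, hA, hcell⟩ := h2 q α S hα hS
  obtain ⟨Z₀, hZ₀, hrank⟩ := rank1 h3 hη0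
  -- the grid
  have hgrid : ∀ j : ℕ, ∃ D : ℝ, 0 < D ∧ ((j : ℝ) * δ / 4 ≤ κ₁ → ∀ (X : ℝ) (F : Finset K), 0 ≤ X →
      (∀ x ∈ F, Of α x ∧ hr (aff x) ≤ X ∧
        ∃ P, IsP S α x P ∧ tr P ≤ ((q : ℝ) - (j : ℝ) * δ / 4) * hr (aff x) + 0) →
      (F.card : ℝ) ≤ D * Real.exp ((2 - (j : ℝ) * δ / 4 + δ / 4) * X)) := by
    intro j
    by_cases hj : (j : ℝ) * δ / 4 ≤ κ₁
    · obtain ⟨D, hD, h⟩ := h4 α S ((j : ℝ) * δ / 4) (δ / 4) 0 hα hS (by positivity) hj (by positivity)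
      exact ⟨D, hD, fun _ => h⟩
    · exact ⟨1, one_pos, fun h => absurd h hj⟩
  choose Dj hDj hbig using hgrid
  obtain ⟨M, hM⟩ : ∃ M : ℕ, M = ⌈4 / δ⌉₊ := ⟨_, rfl⟩
  obtain ⟨D, hD⟩ : ∃ D : ℝ, D = ∑ j ∈ range (M + 1), Dj j := ⟨_, rfl⟩
  have hDle : ∀ j ∈ range (M + 1), Dj j ≤ D := by
    intro j hj
    rw [hD]
    exact Finset.single_le_sum (f := Dj) (fun j _ => (hDj j).le) hj
  have hD0 : 0 < D := (hDj 0).trans_le (hDle 0 (by simp))
  obtain ⟨B, hB⟩ : ∃ B : ℝ, B = A * (1 + Real.exp (2 * C)) * Real.exp (q * (1 + C + C₀)) *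
    Real.exp 2 := ⟨_, rfl⟩
  have hB0 : 0 < B := by rw [hB]; positivity
  obtain ⟨s, hs⟩ : ∃ s : ℕ, s = (Spl S).card := ⟨_, rfl⟩
  obtain ⟨E, hE⟩ : ∃ E : ℝ, E = D + C * B + C + 1 := ⟨_, rfl⟩
  have hE0 : 0 < E := by rw [hE]; positivity
  have hCB : 0 < C * B := by positivity
  have hη20 : 0 < η ^ 2 := by positivity
  have ev := (poly (A := E) (η := ε / 8) (by positivity) hE0 (1 + s)).and
    (((a1u hη20 hη0).and (eventually_ge_atTop (Z₀ / η ^ 2))).and
      (eventually_ge_atTop (2 : ℝ)))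
  obtain ⟨X₀, hX₀⟩ := eventually_atTop.1 ev
  refine ⟨max X₀ 2, lt_max_of_lt_right (by norm_num), fun X hX κ hκ0 hκl F hF => ?_⟩
  obtain ⟨hpoly, ⟨ha1, hXZ⟩, hX2⟩ := hX₀ X ((le_max_left _ _).trans hX)
  have hX1 : 1 ≤ X := by linarith
  have hX0 : 0 ≤ X := by linarith
  have hlX : 0 < Real.log X := Real.log_pos (by linarith)
  obtain ⟨t, ht⟩ : ∃ t : ℝ, t = ∑ l, κ l := ⟨_, rfl⟩
  rw [← ht] at hκl
  have ht0 : 0 ≤ t := by rw [ht]; exact Finset.sum_nonneg fun l _ => hκ0 l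
  have hκt : ∀ l, κ l ≤ t := by
    intro l
    rw [ht]
    exact Finset.single_le_sum (f := κ) (fun l _ => hκ0 l) (mem_univ l)
  have ht1 : t ≤ 1 := by linarith
  have hκ1 : ∀ l, κ l ≤ 1 := fun l => (hκt l).trans ht1
  obtain ⟨σ, hσ⟩ : ∃ σ : ℝ, σ = ∑ l, √(κ l) := ⟨_, rfl⟩
  have hσ0 : 0 ≤ σ := by
    rw [hσ]
    exact Finset.sum_nonneg fun l _ => Real.sqrt_nonneg _
  obtain ⟨W, hW⟩ : ∃ W : ℝ, W = √(8 * X / Real.log X) := ⟨_, rfl⟩
  have hW0 : 0 ≤ W := by rw [hW]; exact Real.sqrt_nonneg _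
  obtain ⟨V', hV'⟩ : ∃ V' : ℝ, V' = √(X / Real.log X) := ⟨_, rfl⟩
  have hV'0 : 0 ≤ V' := by rw [hV']; exact Real.sqrt_nonneg _
  have hWV : W ≤ 3 * V' := by
    rw [hW, hV', mul_div_assoc, Real.sqrt_mul (by norm_num)]
    apply mul_le_mul_of_nonneg_right _ (Real.sqrt_nonneg _)
    rw [Real.sqrt_le_left (by norm_num)]
    norm_num
  rw [← hW] at hpoly
  simp only [← hW] at ha1
  have hgoal : ∑ l, √(8 * κ l * X / Real.log X) = σ * W := by
    rw [hσ, Finset.sum_mul]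
    refine Finset.sum_congr rfl fun l _ => ?_
    rw [hW, ← Real.sqrt_mul (hκ0 l)]
    congr 1
    ring
  rw [hgoal, ← ht, ← hV']
  obtain ⟨z, hz⟩ : ∃ z : Fin q → ℝ, z = fun l => κ l + η ^ 2 := ⟨_, rfl⟩
  have hz1 : ∀ l, η ^ 2 ≤ z l := by
    intro l
    rw [hz]
    have := hκ0 l
    simp only
    linarith
  have hz0 : ∀ l, 0 < z l := fun l => hη20.trans_le (hz1 l)
  have hz2 : ∀ l, κ l ≤ z l := by
    intro l
    rw [hz]
    simp only
    linarith
  have hz3 : ∀ l, √(z l) ≤ √(κ l) + η := by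
    intro l
    rw [hz]
    apply Real.sqrt_le_iff.2
    have h2 := Real.sqrt_nonneg (κ l)
    have h3 := Real.sq_sqrt (hκ0 l)
    refine ⟨by positivity, ?_⟩
    nlinarith
  obtain ⟨R, hR⟩ : ∃ R : Fin q → ℝ, R = fun l =>
    (1 + η) * √(8 * (z l * (X + 1) / Real.log (z l * (X + 1)))) := ⟨_, rfl⟩
  have hR0 : ∀ l, 0 ≤ R l := by
    intro l
    rw [hR]
    positivity
  have hRs : ∑ l, R l ≤ σ * W + ε / 2 * V' := by
    calc ∑ l, R l ≤ ∑ l, (√(κ l) + 7 * η) * W := by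
          refine Finset.sum_le_sum fun l _ => ?_
          rw [hR]
          simp only
          calc (1 + η) * √(8 * (z l * (X + 1) / Real.log (z l * (X + 1))))
              ≤ (1 + η) * ((1 + η) * (√(z l) * W)) :=
                mul_le_mul_of_nonneg_left (ha1 (z l) (hz1 l)) (by positivity)
            _ ≤ (1 + η) * ((1 + η) * ((√(κ l) + η) * W)) := by
                apply mul_le_mul_of_nonneg_left _ (by positivity)
                apply mul_le_mul_of_nonneg_left _ (by positivity)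
                exact mul_le_mul_of_nonneg_right (hz3 l) hW0
            _ = (1 + η) * ((1 + η) * (√(κ l) + η)) * W := by ring
            _ ≤ _ := by
                apply mul_le_mul_of_nonneg_right _ hW0
                apply hη4 _ (Real.sqrt_nonneg _)
                rw [Real.sqrt_le_left (by norm_num)]
                linarith [hκ1 l]
      _ = σ * W + q * (7 * η) * W := by
          rw [← Finset.sum_mul, Finset.sum_add_distrib, Finset.sum_const, Finset.card_univ,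
            Fintype.card_fin, nsmul_eq_mul, ← hσ]
          ring
      _ ≤ σ * W + q * (7 * η) * (3 * V') := by
          have : q * (7 * η) * W ≤ q * (7 * η) * (3 * V') :=
            mul_le_mul_of_nonneg_left hWV (by positivity)
          linarith
      _ = σ * W + (21 * q * η) * V' := by ring
      _ ≤ _ := by
          have := mul_le_mul_of_nonneg_right hη3 hV'0
          linarith
  have hRn : 0 ≤ ∑ l, R l := Finset.sum_nonneg fun l _ => hR0 l
  -- the grid point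
  obtain ⟨j, hj⟩ : ∃ j : ℕ, j = ⌈4 * t / δ⌉₊ + 1 := ⟨_, rfl⟩
  have h4t : 0 ≤ 4 * t / δ := by positivity
  have hj1 : t + δ / 4 ≤ (j : ℝ) * δ / 4 := by
    have e1 := Nat.le_ceil (4 * t / δ)
    have e2 : 4 * t ≤ (⌈4 * t / δ⌉₊ : ℝ) * δ := by rwa [div_le_iff₀ hδ0] at e1
    rw [hj]
    push_cast
    linarith
  have hj2 : (j : ℝ) * δ / 4 ≤ t + δ / 2 := by
    have e1 := (Nat.ceil_lt_add_one h4t).le
    have e2 : (⌈4 * t / δ⌉₊ : ℝ) * δ ≤ 4 * t + δ := by
      have := mul_le_mul_of_nonneg_right e1 hδ0.le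
      rwa [add_mul, one_mul, div_mul_cancel₀ _ hδ0.ne'] at this
    rw [hj]
    push_cast
    linarith
  have hj3 : (j : ℝ) * δ / 4 ≤ κ₁ := by linarith
  have hj4 : j ∈ range (M + 1) := by
    rw [mem_range, Nat.lt_succ_iff, hM]
    have e1 : (j : ℝ) ≤ 4 / δ := by
      rw [le_div_iff₀ hδ0]
      linarith
    exact_mod_cast e1.trans (Nat.le_ceil _)
  obtain ⟨κ', hκ'⟩ : ∃ κ' : ℝ, κ' = (j : ℝ) * δ / 4 := ⟨_, rfl⟩
  -- the choice of the ideals
  have hP' : ∀ x : K, ∃ P : Fin q → Idl K, x ∈ F → IsP S α x P ∧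
      ∀ l, rl (P l) ≤ (1 - κ l) * hr (aff x) + C₀ := by
    intro x
    by_cases hx : x ∈ F
    · obtain ⟨P, hP⟩ := (hF x hx).2.2
      exact ⟨P, fun _ => hP⟩
    · exact ⟨0, fun h => absurd h hx⟩
  choose P hP using hP'
  -- the points with a small radical
  have hsm : ((#{x ∈ F | tr (P x) ≤ ((q : ℝ) - κ') * hr (aff x)} : ℕ) : ℝ) ≤
      D * Real.exp ((2 - t) * X) := by
    refine (hbig j hj3 X _ hX0 ?_).trans ?_
    · intro x hx
      rw [mem_filter] at hx
      refine ⟨(hF x hx.1).1, (hF x hx.1).2.1, P x, (hP x hx.1).1, ?_⟩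
      rw [add_zero, ← hκ']
      exact hx.2
    · apply mul_le_mul (hDle j hj4) _ (Real.exp_pos _).le hD0.le
      apply Real.exp_le_exp.2
      apply mul_le_mul_of_nonneg_right _ hX0
      linarith
  -- the other points
  obtain ⟨Fc, hFc⟩ : ∃ Fc : Finset K,
      Fc = {x ∈ F | ¬ tr (P x) ≤ ((q : ℝ) - κ') * hr (aff x)} := ⟨_, rfl⟩
  have hcov : (F.card : ℝ) =
      ((#{x ∈ F | tr (P x) ≤ ((q : ℝ) - κ') * hr (aff x)} : ℕ) : ℝ) + (Fc.card : ℝ) := by
    rw [hFc]
    exact_mod_cast (Finset.card_filter_add_card_filter_not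
      (s := F) (fun x => tr (P x) ≤ ((q : ℝ) - κ') * hr (aff x))).symm
  obtain ⟨T, hT1, hT2, hT3⟩ := hcodes X hX0
  rw [← hs] at hT1
  have hf : ∀ x : K, ∃ c : Option (ℕ × (Pl K → Fin q) × (Pl K → ℕ)), Of α x →
      hr (aff x) ≤ X → ∃ c₁ ∈ T, c = some c₁ ∧ Ic α S C c₁ x := by
    intro x
    by_cases hx : Of α x ∧ hr (aff x) ≤ X
    · obtain ⟨c, hc, hc'⟩ := hT3 x hx.1 hx.2
      exact ⟨some c, fun _ _ => ⟨c, hc, rfl, hc'⟩⟩
    · exact ⟨none, fun h h' => absurd ⟨h, h'⟩ hx⟩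
  choose f hf using hf
  have hcard : (Fc.card : ℝ) ≤ (T.card : ℝ) *
      (B * Real.exp ((2 - t) * X + ∑ l, R l)) := by
    have hUc : ((T.image some).card : ℝ) ≤ T.card := by exact_mod_cast card_image_le
    rw [card_eq_sum_card_fiberwise (f := f) (t := T.image some) (by
      intro x hx
      have hx' : x ∈ Fc := hx
      rw [hFc, mem_filter] at hx'
      obtain ⟨g1, g2, -⟩ := hF x hx'.1
      obtain ⟨c, hc, hc1, -⟩ := hf x g1 g2
      rw [hc1]
      exact mem_image_of_mem _ hc)]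
    push_cast
    have hfib : ∀ u ∈ T.image some, ((#{x ∈ Fc | f x = u} : ℕ) : ℝ) ≤
        B * Real.exp ((2 - t) * X + ∑ l, R l) := by
      intro u hu
      obtain ⟨c, hc, rfl⟩ := mem_image.1 hu
      have b1 := cls (c := c) (α := α) (S := S) (κ := κ) (A := A) (C := C) (C₀ := C₀)
        (κ' := κ') (X := X) (R := R) (Z := fun l => z l * (X + 1))
        (G := {x ∈ Fc | f x = some c}) hA.le hC.le hC₀ hκ0 hκ1 (by rw [← ht]; linarith)
        (by rw [hκ']; linarith) hcell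
        (fun l => mul_le_mul_of_nonneg_right (hz2 l) (by linarith)) (by
          intro l T' F' hT' hF'
          rw [hR]
          refine hrank (z l * (X + 1)) T' F' ?_ hT' hF'
          rw [div_le_iff₀ hη20] at hXZ
          have h6 := hz1 l
          nlinarith) (hT2 c hc) (by
          intro x hx
          rw [mem_filter, hFc, mem_filter] at hx
          obtain ⟨⟨hxF, hx1⟩, hx2⟩ := hx
          obtain ⟨g1, g2, -⟩ := hF x hxF
          obtain ⟨c₁, -, hc1, hc2⟩ := hf x g1 g2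
          rw [hx2] at hc1
          have h5 : c = c₁ := Option.some.inj hc1
          rw [← h5] at hc2
          refine ⟨g1, hc2, P x, (hP x hxF).1, (hP x hxF).2, ?_⟩
          push Not at hx1
          exact hx1.le)
      refine b1.trans ?_
      rw [← ht, hB]
      have b2 : Real.exp ((2 - t) * (X + 1) + ∑ l, R l) ≤
          Real.exp 2 * Real.exp ((2 - t) * X + ∑ l, R l) := by
        rw [← Real.exp_add]
        apply Real.exp_le_exp.2
        linarith
      calc A * (1 + Real.exp (2 * C)) * Real.exp (q * (1 + C + C₀)) *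
            Real.exp ((2 - t) * (X + 1) + ∑ l, R l)
          ≤ A * (1 + Real.exp (2 * C)) * Real.exp (q * (1 + C + C₀)) *
            (Real.exp 2 * Real.exp ((2 - t) * X + ∑ l, R l)) :=
            mul_le_mul_of_nonneg_left b2 (by positivity)
        _ = _ := by ring
    refine (Finset.sum_le_sum hfib).trans ?_
    rw [Finset.sum_const, nsmul_eq_mul]
    exact mul_le_mul_of_nonneg_right hUc (by positivity)
  -- the sum
  have hT4 : (T.card : ℝ) * B ≤ C * B * (X + E) ^ (1 + s) := by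
    calc (T.card : ℝ) * B ≤ C * (X + C) ^ (1 + s) * B := mul_le_mul_of_nonneg_right hT1 hB0.le
      _ = C * B * (X + C) ^ (1 + s) := by ring
      _ ≤ _ := by
          apply mul_le_mul_of_nonneg_left _ hCB.le
          apply pow_le_pow_left₀ (by linarith)
          rw [hE]; linarith
  obtain ⟨V, hV⟩ : ∃ V : ℝ, V = Real.exp ((2 - t) * X + ∑ l, R l) := ⟨_, rfl⟩
  have hV0 : 0 < V := by rw [hV]; positivity
  have hV1 : Real.exp ((2 - t) * X) ≤ V := by
    rw [hV]
    exact Real.exp_le_exp.2 (by linarith)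
  rw [← hV] at hcard
  have hpow : 1 ≤ (X + E) ^ (1 + s) := one_le_pow₀ (by linarith)
  have hfin : (F.card : ℝ) ≤ E * (X + E) ^ (1 + s) * V := by
    have e1 : D * Real.exp ((2 - t) * X) ≤ D * ((X + E) ^ (1 + s) * V) := by
      apply mul_le_mul_of_nonneg_left _ hD0.le
      calc Real.exp ((2 - t) * X) ≤ 1 * V := by rw [one_mul]; exact hV1
        _ ≤ _ := mul_le_mul_of_nonneg_right hpow hV0.le
    have e2 : (T.card : ℝ) * (B * V) ≤ C * B * (X + E) ^ (1 + s) * V := by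
      rw [← mul_assoc]
      exact mul_le_mul_of_nonneg_right hT4 hV0.le
    have e3 : 0 ≤ (C + 1) * ((X + E) ^ (1 + s) * V) := by positivity
    rw [hcov]
    calc ((#{x ∈ F | tr (P x) ≤ ((q : ℝ) - κ') * hr (aff x)} : ℕ) : ℝ) + (Fc.card : ℝ)
        ≤ D * ((X + E) ^ (1 + s) * V) + C * B * (X + E) ^ (1 + s) * V := by linarith
      _ ≤ D * ((X + E) ^ (1 + s) * V) + C * B * (X + E) ^ (1 + s) * V +
          (C + 1) * ((X + E) ^ (1 + s) * V) := by linarith
      _ = _ := by rw [hE]; ring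
  calc (F.card : ℝ) ≤ E * (X + E) ^ (1 + s) * V := hfin
    _ ≤ Real.exp (ε / 8 * W) * V := mul_le_mul_of_nonneg_right hpoly hV0.le
    _ = Real.exp (ε / 8 * W + ((2 - t) * X + ∑ l, R l)) := by rw [hV, ← Real.exp_add]
    _ ≤ _ := by
        apply Real.exp_le_exp.2
        have : ε / 8 * W ≤ ε / 8 * (3 * V') := mul_le_mul_of_nonneg_left hWV (by positivity)
        have : 0 ≤ ε * V' := by positivity
        linarith

end Run7.h585.LD
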