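import Pool.Agent.Run7.h585.LD.Ups

/-!
# Large deviations from bounds for orthants: abstract form

`P` is a set of objects with a height `H` and gains `g p l ∈ [0, 1]`, `l = 1, …, q`. From the upper
bound `UB` and the lower bound `LB` for the number of the objects with `g p ≥ κ` (the upper bound
being uniform in `κ`) we deduce the two main terms for arbitrary closed sets of gains.

Written by helper585.
-/

set_option autoImplicit false

namespace Run7.h585.LD.Abs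

open Finset Filter Topology

variable {P : Type} {q : ℕ} (H : P → ℝ) (g : P → Fin q → ℝ) (κ₁ : ℝ)

/-- the objects with `H p ≤ X` and gains in `E` -/
def AS (E : Set (Fin q → ℝ)) (X : ℝ) : Set P := {p | H p ≤ X ∧ g p ∈ E}

/-- the upper bound for orthants -/
def UB : Prop := ∀ δ ε : ℝ, 0 < δ → 0 < ε → ∃ X₀ : ℝ, 1 < X₀ ∧ ∀ X : ℝ, X₀ ≤ X →
  ∀ κ : Fin q → ℝ, (∀ l, 0 ≤ κ l) → ∑ l, κ l ≤ κ₁ - δ → ∀ F : Finset P,
    (∀ p ∈ F, H p ≤ X ∧ ∀ l, κ l ≤ g p l) →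
    (F.card : ℝ) ≤ Real.exp ((2 - ∑ l, κ l) * X + √8 * (∑ l, √(κ l)) * √(X / Real.log X) +
      ε * √(X / Real.log X))

/-- the lower bound for orthants -/
def LB : Prop := ∀ (κ : Fin q → ℝ) (ε : ℝ), (∀ l, 0 ≤ κ l) → 0 < ∑ l, κ l → ∑ l, κ l < κ₁ →
  0 < ε → ∃ X₀ : ℝ, 1 < X₀ ∧ ∀ X : ℝ, X₀ ≤ X →
    Real.exp ((2 - ∑ l, κ l) * X + √8 * (∑ l, √(κ l)) * √(X / Real.log X) -
      ε * √(X / Real.log X)) ≤ ((AS H g {x | ∀ l, κ l ≤ x l} X).ncard : ℝ)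

variable {H g κ₁}

theorem as_finite (hfin : ∀ X : ℝ, {p | H p ≤ X}.Finite) (E : Set (Fin q → ℝ)) (X : ℝ) :
    (AS H g E X).Finite := (hfin X).subset fun _ hp => hp.1

theorem sgq {κ : Fin q → ℝ} (hκ : ∀ l, κ l ≤ 1) : ∑ l, √(κ l) ≤ q := by
  have : ∑ l : Fin q, √(κ l) ≤ ∑ _l : Fin q, (1 : ℝ) := by
    refine Finset.sum_le_sum fun l _ => ?_
    rw [Real.sqrt_le_left (by norm_num)]
    linarith [hκ l]
  simpa using this

theorem cptq {E : Set (Fin q → ℝ)} (hE : IsClosed E) {s w : ℝ}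
    (hE1 : ∀ g ∈ E, (∀ l, 0 ≤ g l) → (∀ l, g l ≤ 1) → s ≤ ∑ l, g l)
    (hE2 : ∀ g ∈ E, (∀ l, 0 ≤ g l) → (∀ l, g l ≤ 1) → ∑ l, g l = s → ∑ l, √(g l) ≤ w)
    {ε : ℝ} (hε : 0 < ε) : ∃ η : ℝ, 0 < η ∧ ∀ g ∈ E, (∀ l, 0 ≤ g l) → (∀ l, g l ≤ 1) →
      ∑ l, g l < s + η → ∑ l, √(g l) ≤ w + ε := by
  obtain ⟨Q, hQ⟩ : ∃ Q : Set (Fin q → ℝ), Q = (Set.univ.pi fun _ => Set.Icc (0 : ℝ) 1) ∩
    (E ∩ {g | w + ε ≤ ∑ l, √(g l)}) := ⟨_, rfl⟩
  have hmem : ∀ g, g ∈ Q ↔ ((∀ l, 0 ≤ g l) ∧ (∀ l, g l ≤ 1)) ∧ g ∈ E ∧ w + ε ≤ ∑ l, √(g l) := by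
    intro g
    rw [hQ]
    constructor
    · rintro ⟨h1, h2, h3⟩
      exact ⟨⟨fun l => (h1 l trivial).1, fun l => (h1 l trivial).2⟩, h2, h3⟩
    · rintro ⟨⟨h1, h2⟩, h3, h4⟩
      exact ⟨fun l _ => ⟨h1 l, h2 l⟩, h3, h4⟩
  have hcl : IsClosed {g : Fin q → ℝ | w + ε ≤ ∑ l, √(g l)} :=
    isClosed_le continuous_const (by fun_prop)
  have hc : IsCompact Q := by
    rw [hQ]
    exact (isCompact_univ_pi fun _ => isCompact_Icc).inter_right (hE.inter hcl)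
  rcases Q.eq_empty_or_nonempty with he | hne
  · refine ⟨1, one_pos, fun g hg h0 h1 _ => ?_⟩
    by_contra h
    have : g ∈ Q := (hmem g).2 ⟨⟨h0, h1⟩, hg, by linarith⟩
    rw [he] at this
    exact this
  · obtain ⟨g₀, hg₀, hmin⟩ := hc.exists_isMinOn hne
      (f := fun g : Fin q → ℝ => ∑ l, g l) (by fun_prop)
    obtain ⟨⟨a0, a1⟩, a2, a3⟩ := (hmem g₀).1 hg₀
    have b1 := hE1 g₀ a2 a0 a1
    have b2 : s < ∑ l, g₀ l := by
      refine lt_of_le_of_ne b1 fun h => ?_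
      have := hE2 g₀ a2 a0 a1 h.symm
      linarith
    refine ⟨∑ l, g₀ l - s, by linarith, fun g hg h0 h1 h2 => ?_⟩
    by_contra h
    have h3 : g ∈ Q := (hmem g).2 ⟨⟨h0, h1⟩, hg, by linarith⟩
    have h4 : ∑ l, g₀ l ≤ ∑ l, g l := hmin h3
    linarith

/-- the upper bound for closed sets -/
theorem ab_up (hfin : ∀ X : ℝ, {p | H p ≤ X}.Finite) (hg0 : ∀ p l, 0 ≤ g p l)
    (hg1 : ∀ p l, g p l ≤ 1) (hU : UB H g κ₁) {E : Set (Fin q → ℝ)} (hE : IsClosed E) {s w : ℝ}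
    (hs0 : 0 ≤ s) (hs1 : s < κ₁) (hκ₁ : κ₁ ≤ 1) (hw : 0 ≤ w)
    (hE1 : ∀ g ∈ E, (∀ l, 0 ≤ g l) → (∀ l, g l ≤ 1) → s ≤ ∑ l, g l)
    (hE2 : ∀ g ∈ E, (∀ l, 0 ≤ g l) → (∀ l, g l ≤ 1) → ∑ l, g l = s → ∑ l, √(g l) ≤ w)
    {ε : ℝ} (hε : 0 < ε) : ∃ X₀ : ℝ, 1 < X₀ ∧ ∀ X : ℝ, X₀ ≤ X →
      ((AS H g E X).ncard : ℝ) ≤
        Real.exp ((2 - s) * X + (√8 * w + ε) * √(X / Real.log X)) := by
  classical
  obtain ⟨ε₁, hε₁⟩ : ∃ ε₁ : ℝ, ε₁ = min 1 (ε / 9) := ⟨_, rfl⟩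
  have hε₁0 : 0 < ε₁ := by rw [hε₁]; exact lt_min one_pos (by positivity)
  have hε₁1 : ε₁ ≤ 1 := by rw [hε₁]; exact min_le_left _ _
  have hε₁2 : ε₁ ≤ ε / 9 := by rw [hε₁]; exact min_le_right _ _
  obtain ⟨η, hη0, hη⟩ := cptq hE hE1 hE2 hε₁0
  obtain ⟨r, hr⟩ : ∃ r : ℝ, r = (κ₁ + s) / 2 := ⟨_, rfl⟩
  have hr0 : 0 < r := by rw [hr]; linarith
  have hrs : s < r := by rw [hr]; linarith
  have hr1 : r < κ₁ := by rw [hr]; linarith
  obtain ⟨X₁, hX₁, hup⟩ := hU (κ₁ - r) ε₁ (by linarith) hε₁0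
  obtain ⟨A, hA⟩ : ∃ A : ℝ, A = Real.exp q + 2 := ⟨_, rfl⟩
  have hA0 : 0 < A := by rw [hA]; positivity
  obtain ⟨cq, hcq⟩ : ∃ cq : ℝ, cq = 3 * q + 1 := ⟨_, rfl⟩
  have hcq0 : 0 ≤ cq := by rw [hcq]; positivity
  have ev := (Pool.Agent.N575.QP.poly (A := A) (η := ε / 9) (by positivity) hA0 q).and
    (((vsmall q cq η hη0).and (vsmall 0 cq (r - s) (by linarith))).and
      ((Real.tendsto_log_atTop.eventually_ge_atTop 1)))
  obtain ⟨X₀, hX₀⟩ := eventually_atTop.1 ev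
  refine ⟨max (max X₀ X₁) 2, lt_max_of_lt_right (by norm_num), fun X hX => ?_⟩
  obtain ⟨hpoly, ⟨hv1, hv2⟩, hlX⟩ := hX₀ X ((le_max_left _ _).trans ((le_max_left _ _).trans hX))
  have hXX₁ : X₁ ≤ X := (le_max_right _ _).trans ((le_max_left _ _).trans hX)
  have hX2 : 2 ≤ X := (le_max_right _ _).trans hX
  have hX0 : 0 < X := by linarith
  have h := hup X hXX₁
  obtain ⟨V, hV⟩ : ∃ V : ℝ, V = √(X / Real.log X) := ⟨_, rfl⟩
  have hV0 : 0 ≤ V := by rw [hV]; exact Real.sqrt_nonneg _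
  rw [← hV] at hv1 hv2 h ⊢
  have h80 : 0 ≤ √(8 : ℝ) := Real.sqrt_nonneg _
  have h81 := s8
  have hW : √(8 * X / Real.log X) ≤ 3 * V := by
    rw [hV, mul_div_assoc, Real.sqrt_mul (by norm_num)]
    exact mul_le_mul_of_nonneg_right s8 (Real.sqrt_nonneg _)
  obtain ⟨N, hN⟩ : ∃ N : ℕ, N = ⌈X⌉₊ := ⟨_, rfl⟩
  have hN1 : X ≤ N := by rw [hN]; exact Nat.le_ceil X
  have hN2 : (N : ℝ) ≤ X + 1 := by rw [hN]; exact (Nat.ceil_lt_add_one hX0.le).le
  have hN0 : (0 : ℝ) < N := by linarith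
  have hfE := as_finite (g := g) hfin E X
  obtain ⟨F, hF⟩ : ∃ F : Finset P, F = hfE.toFinset := ⟨_, rfl⟩
  have hFm : ∀ t ∈ F, H t ≤ X ∧ g t ∈ E := by
    intro t ht
    rw [hF, Set.Finite.mem_toFinset] at ht
    exact ht
  rw [Set.ncard_eq_toFinset_card _ hfE, ← hF]
  obtain ⟨cell, hcell⟩ : ∃ cell : P → Fin q → ℕ, cell = fun t l => ⌊g t l * N⌋₊ :=
    ⟨_, rfl⟩
  obtain ⟨B, hB⟩ : ∃ B : ℝ, B = Real.exp ((2 - s) * X + q + √8 * (w + ε₁) * V + ε₁ * V) :=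
    ⟨_, rfl⟩
  have hB0 : 0 < B := by rw [hB]; exact Real.exp_pos _
  have hmaps : ∀ t ∈ F, cell t ∈ Fintype.piFinset (fun _ : Fin q => range (N + 1)) := by
    intro t ht
    rw [Fintype.mem_piFinset]
    intro l
    rw [mem_range, Nat.lt_succ_iff, hcell]
    apply Nat.floor_le_of_le
    have h1 := hg1 t l
    nlinarith
  have hfib : ∀ m ∈ Fintype.piFinset (fun _ : Fin q => range (N + 1)),
      ((#{t ∈ F | cell t = m} : ℕ) : ℝ) ≤ B := by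
    intro m _
    rcases ({t ∈ F | cell t = m} : Finset _).eq_empty_or_nonempty with he | ⟨t₀, ht₀⟩
    · rw [he, card_empty, Nat.cast_zero]
      exact hB0.le
    · rw [mem_filter] at ht₀
      obtain ⟨-, hg₀⟩ := hFm t₀ ht₀.1
      obtain ⟨x, hx⟩ : ∃ x : Fin q → ℝ, x = g t₀ := ⟨_, rfl⟩
      rw [← hx] at hg₀
      have hgl : ∀ l, 0 ≤ x l := fun l => by rw [hx]; exact hg0 t₀ l
      have hgu : ∀ l, x l ≤ 1 := fun l => by rw [hx]; exact hg1 t₀ l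
      obtain ⟨κ, hκ⟩ : ∃ κ : Fin q → ℝ, κ = fun l => (m l : ℝ) / N := ⟨_, rfl⟩
      have hκ0 : ∀ l, 0 ≤ κ l := fun l => by rw [hκ]; positivity
      have hκt : ∀ t ∈ ({t ∈ F | cell t = m} : Finset _), ∀ l, κ l ≤ g t l := by
        intro t ht l
        rw [mem_filter] at ht
        rw [hκ]
        simp only
        rw [div_le_iff₀ hN0, ← ht.2, hcell]
        exact Nat.floor_le (mul_nonneg (hg0 t l) hN0.le)
      have hκg : ∀ l, κ l ≤ x l := by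
        intro l
        rw [hx]
        exact hκt t₀ (mem_filter.2 ht₀) l
      have hgκ : ∀ l, x l ≤ κ l + 1 / X := by
        intro l
        have h1 : x l * N < (m l : ℝ) + 1 := by
          rw [← ht₀.2, hcell, hx]
          exact Nat.lt_floor_add_one _
        have h2 : x l ≤ ((m l : ℝ) + 1) / N := by
          rw [le_div_iff₀ hN0]
          exact h1.le
        have h3 : (1 : ℝ) / N ≤ 1 / X := div_le_div_of_nonneg_left one_pos.le hX0 hN1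
        rw [hκ]
        rw [add_div] at h2
        simp only
        linarith
      have hsum1 : ∑ l, x l ≤ ∑ l, κ l + q / X := by
        have := Finset.sum_le_sum fun l (_ : l ∈ (univ : Finset (Fin q))) => hgκ l
        rw [Finset.sum_add_distrib, Finset.sum_const, Finset.card_univ, Fintype.card_fin,
          nsmul_eq_mul] at this
        have e : ((q : ℕ) : ℝ) * (1 / X) = q / X := by ring
        rwa [e] at this
      have hsg : ∑ l, √(κ l) ≤ ∑ l, √(x l) :=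
        Finset.sum_le_sum fun l _ => Real.sqrt_le_sqrt (hκg l)
      have hsg3 : ∑ l, √(x l) ≤ q := sgq hgu
      have hsgn : 0 ≤ ∑ l, √(κ l) := Finset.sum_nonneg fun _ _ => Real.sqrt_nonneg _
      have hwV : 0 ≤ √8 * (w + ε₁) * V := by positivity
      have hεV : 0 ≤ ε₁ * V := by positivity
      have hεV1 : ε₁ * V ≤ 1 * V := mul_le_mul_of_nonneg_right hε₁1 hV0
      have hcqV : cq * V = 3 * q * V + 1 * V := by rw [hcq]; ring
      by_cases hcase : ∑ l, κ l ≤ κ₁ - (κ₁ - r)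
      · have h1 := h κ hκ0 hcase {t ∈ F | cell t = m} (by
          intro t ht
          have ht' := (mem_filter.1 ht).1
          exact ⟨(hFm t ht').1, hκt t ht⟩)
        refine h1.trans ?_
        rw [hB]
        apply Real.exp_le_exp.2
        have h2 : (2 - ∑ l, κ l) * X ≤ (2 - ∑ l, x l) * X + q := by
          have h3 : (∑ l, x l) * X ≤ (∑ l, κ l + q / X) * X :=
            mul_le_mul_of_nonneg_right hsum1 hX0.le
          rw [add_mul, div_mul_cancel₀ _ hX0.ne'] at h3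
          linarith
        by_cases hc2 : ∑ l, x l < s + η
        · have h3 := hη x hg₀ hgl hgu hc2
          have h4 : √8 * (∑ l, √(κ l)) * V ≤ √8 * (w + ε₁) * V := by
            apply mul_le_mul_of_nonneg_right _ hV0
            exact mul_le_mul_of_nonneg_left (hsg.trans h3) h80
          have h5 := hE1 x hg₀ hgl hgu
          have h6 : s * X ≤ (∑ l, x l) * X := mul_le_mul_of_nonneg_right h5 hX0.le
          linarith
        · push Not at hc2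
          have h4 : √8 * (∑ l, √(κ l)) * V ≤ 3 * q * V := by
            apply mul_le_mul_of_nonneg_right _ hV0
            exact mul_le_mul h81 (hsg.trans hsg3) hsgn (by norm_num)
          have h6 : (s + η) * X ≤ (∑ l, x l) * X := mul_le_mul_of_nonneg_right hc2 hX0.le
          linarith
      · push Not at hcase
        have hcase' : r < ∑ l, κ l := by linarith
        have hκp : 0 < ∑ l, κ l := by linarith
        obtain ⟨θ, hθ⟩ : ∃ θ : ℝ, θ = r / ∑ l, κ l := ⟨_, rfl⟩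
        have hθ0 : 0 < θ := by rw [hθ]; positivity
        have hθ1 : θ ≤ 1 := by rw [hθ, div_le_one hκp]; exact hcase'.le
        have hle : ∀ l, θ * κ l ≤ κ l := by
          intro l
          have := mul_le_mul_of_nonneg_right hθ1 (hκ0 l)
          linarith
        have hsm : ∑ l, θ * κ l = r := by
          rw [← Finset.mul_sum, hθ, div_mul_cancel₀ _ hκp.ne']
        have h0 : ∀ l, 0 ≤ θ * κ l := fun l => mul_nonneg hθ0.le (hκ0 l)
        have h1 := h (fun l => θ * κ l) h0 (by rw [hsm]; linarith) {t ∈ F | cell t = m} (by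
          intro t ht
          have ht' := (mem_filter.1 ht).1
          exact ⟨(hFm t ht').1, fun l => (hle l).trans (hκt t ht l)⟩)
        refine h1.trans ?_
        rw [hsm, hB]
        apply Real.exp_le_exp.2
        have h4 : √8 * (∑ l, √(θ * κ l)) * V ≤ 3 * q * V := by
          apply mul_le_mul_of_nonneg_right _ hV0
          refine mul_le_mul h81 ?_ (Finset.sum_nonneg fun _ _ => Real.sqrt_nonneg _) (by norm_num)
          exact sgq fun l => (hle l).trans ((hκg l).trans (hgu l))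
        have hq0 : (0 : ℝ) ≤ q := Nat.cast_nonneg q
        linarith
  have hcardF : (F.card : ℝ) ≤ ((N : ℝ) + 1) ^ q * B := by
    rw [card_eq_sum_card_fiberwise (f := cell)
      (t := Fintype.piFinset (fun _ : Fin q => range (N + 1))) hmaps]
    push_cast
    refine (Finset.sum_le_sum hfib).trans ?_
    rw [Finset.sum_const, Fintype.card_piFinset, Finset.prod_const, card_range, Finset.card_univ,
      Fintype.card_fin, nsmul_eq_mul]
    push_cast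
    exact le_rfl
  have hNp : ((N : ℝ) + 1) ^ q * Real.exp q ≤ Real.exp (ε / 3 * V) := by
    have hq0 : (0 : ℝ) < Real.exp q := Real.exp_pos _
    calc ((N : ℝ) + 1) ^ q * Real.exp q ≤ (X + A) ^ q * A := by
          apply mul_le_mul _ (by rw [hA]; linarith) (Real.exp_pos _).le (by positivity)
          exact pow_le_pow_left₀ (by positivity) (by rw [hA]; linarith) _
      _ = A * (X + A) ^ q := by ring
      _ ≤ _ := hpoly
      _ ≤ _ := by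
          apply Real.exp_le_exp.2
          have := mul_le_mul_of_nonneg_left hW (show 0 ≤ ε / 9 by positivity)
          linarith
  refine hcardF.trans ?_
  have hB' : B = Real.exp q * Real.exp ((2 - s) * X + √8 * (w + ε₁) * V + ε₁ * V) := by
    rw [hB, ← Real.exp_add]
    congr 1
    ring
  rw [hB', ← mul_assoc]
  calc ((N : ℝ) + 1) ^ q * Real.exp q * Real.exp ((2 - s) * X + √8 * (w + ε₁) * V + ε₁ * V)
      ≤ Real.exp (ε / 3 * V) * Real.exp ((2 - s) * X + √8 * (w + ε₁) * V + ε₁ * V) :=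
        mul_le_mul_of_nonneg_right hNp (Real.exp_pos _).le
    _ = Real.exp (ε / 3 * V + ((2 - s) * X + √8 * (w + ε₁) * V + ε₁ * V)) := by
        rw [← Real.exp_add]
    _ ≤ _ := by
        apply Real.exp_le_exp.2
        have h1 : √8 * ε₁ ≤ 3 * (ε / 9) := mul_le_mul h81 hε₁2 hε₁0.le (by norm_num)
        have h2 : √8 * ε₁ * V ≤ 3 * (ε / 9) * V := mul_le_mul_of_nonneg_right h1 hV0
        have h3 : ε₁ * V ≤ ε / 9 * V := mul_le_mul_of_nonneg_right hε₁2 hV0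
        have h4 : 0 ≤ ε * V := by positivity
        nlinarith

/-- the lower bound for small boxes -/
theorem ab_lo (hfin : ∀ X : ℝ, {p | H p ≤ X}.Finite) (hg0 : ∀ p l, 0 ≤ g p l)
    (hg1 : ∀ p l, g p l ≤ 1) (hU : UB H g κ₁) (hL : LB H g κ₁) (hκ₁ : κ₁ ≤ 1)
    {κ : Fin q → ℝ} (hκ0 : ∀ l, 0 ≤ κ l) (hκs : 0 < ∑ l, κ l) (hκs1 : ∑ l, κ l < κ₁)
    {η ε : ℝ} (hη : 0 < η) (hε : 0 < ε) : ∃ X₀ : ℝ, 1 < X₀ ∧ ∀ X : ℝ, X₀ ≤ X →
      Real.exp ((2 - ∑ l, κ l) * X + (√8 * (∑ l, √(κ l)) - ε) * √(X / Real.log X)) ≤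
        ((AS H g {x | ∀ l, κ l ≤ x l ∧ x l ≤ κ l + η} X).ncard : ℝ) := by
  classical
  have hq1 : 0 < q := by
    rcases Nat.eq_zero_or_pos q with h | h
    · subst h
      simp at hκs
    · exact h
  have hqR : (1 : ℝ) ≤ q := by exact_mod_cast hq1
  obtain ⟨s, hs⟩ : ∃ s : ℝ, s = ∑ l, κ l := ⟨_, rfl⟩
  obtain ⟨s', hs'⟩ : ∃ s' : ℝ, s' = min (s + η) ((κ₁ + s) / 2) := ⟨_, rfl⟩
  rw [← hs] at hκs hκs1
  have hs'1 : s < s' := by rw [hs']; exact lt_min (by linarith) (by linarith)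
  have hs'2 : s' < κ₁ := by rw [hs']; exact (min_le_right _ _).trans_lt (by linarith)
  have hs'3 : s' ≤ s + η := by rw [hs']; exact min_le_left _ _
  have hUl : ∀ l : Fin q, ∃ X₀ : ℝ, 1 < X₀ ∧ ∀ X : ℝ, X₀ ≤ X →
      ((AS H g {x | (∀ i, κ i ≤ x i) ∧ κ l + η ≤ x l} X).ncard : ℝ) ≤
        Real.exp ((2 - s') * X + (√8 * q + 1) * √(X / Real.log X)) := by
    intro l
    refine ab_up hfin hg0 hg1 hU (E := {x | (∀ i, κ i ≤ x i) ∧ κ l + η ≤ x l}) ?_ (by linarith)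
      hs'2 hκ₁ (Nat.cast_nonneg q) ?_ ?_ one_pos
    · have e : {x : Fin q → ℝ | (∀ i, κ i ≤ x i) ∧ κ l + η ≤ x l} =
          (⋂ i, {x : Fin q → ℝ | κ i ≤ x i}) ∩ {x : Fin q → ℝ | κ l + η ≤ x l} := by
        ext x
        simp
      rw [e]
      refine (isClosed_iInter fun i => isClosed_le continuous_const (continuous_apply i)).inter
        (isClosed_le continuous_const (continuous_apply l))
    · rintro x ⟨h1, h2⟩ _ _
      refine hs'3.trans ?_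
      rw [hs]
      have h3 : ∑ i, κ i + η = ∑ i, (κ i + if i = l then η else 0) := by
        rw [Finset.sum_add_distrib, Finset.sum_ite_eq' univ l, if_pos (mem_univ l)]
      rw [h3]
      refine Finset.sum_le_sum fun i _ => ?_
      by_cases hi : i = l
      · rw [if_pos hi, hi]
        exact h2
      · rw [if_neg hi, add_zero]
        exact h1 i
    · intro x _ _ h1 _
      exact sgq h1
  choose X₁ hX₁ hUl using hUl
  obtain ⟨X₂, hX₂, hlo⟩ := hL κ (ε / 2) hκ0 (by rwa [← hs]) (by rwa [← hs]) (half_pos hε)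
  have ev := ((vsmall (Real.log (2 * q)) (3 * q + 1 + ε / 2) (s' - s) (by linarith)).and
    ((eventually_all.2 fun l => eventually_ge_atTop (X₁ l)).and
      (((Pool.Agent.N906.RS.small 1).eventually_le_const (show (0 : ℝ) < ε / 2 by positivity)).and
        (Real.tendsto_log_atTop.eventually_ge_atTop 1))))
  obtain ⟨X₀, hX₀⟩ := eventually_atTop.1 ev
  refine ⟨max (max X₀ X₂) 2, lt_max_of_lt_right (by norm_num), fun X hX => ?_⟩
  obtain ⟨hv, hX1, hsm, hlX⟩ := hX₀ X ((le_max_left _ _).trans ((le_max_left _ _).trans hX))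
  have h1 := hlo X ((le_max_right _ _).trans ((le_max_left _ _).trans hX))
  have hX2 : 2 ≤ X := (le_max_right _ _).trans hX
  have hU' := fun l => hUl l X (hX1 l)
  obtain ⟨V, hV⟩ : ∃ V : ℝ, V = √(X / Real.log X) := ⟨_, rfl⟩
  have hV0 : 0 < V := by
    rw [hV]
    exact Real.sqrt_pos.2 (div_pos (by linarith) (by linarith))
  simp only [← hV] at hv hsm h1 hU' ⊢
  rw [div_le_iff₀ hV0] at hsm
  rw [← hs] at h1 ⊢
  obtain ⟨L, hL'⟩ : ∃ L : ℝ, L = Real.exp ((2 - s) * X + √8 * (∑ l, √(κ l)) * V - ε / 2 * V) :=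
    ⟨_, rfl⟩
  rw [← hL'] at h1
  have hL0 : 0 < L := by rw [hL']; exact Real.exp_pos _
  have hsg0 : 0 ≤ √8 * (∑ l, √(κ l)) * V := by
    have : 0 ≤ ∑ l, √(κ l) := Finset.sum_nonneg fun _ _ => Real.sqrt_nonneg _
    positivity
  have hexp1 : (2 : ℝ) ≤ Real.exp 1 := by
    have h2 := Real.exp_one_gt_d9
    linarith
  have hq2 : (0 : ℝ) < 2 * q := by linarith
  have hsmall : ∀ l, ((AS H g {x | (∀ i, κ i ≤ x i) ∧ κ l + η ≤ x l} X).ncard : ℝ) ≤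
      L / (2 * q) := by
    intro l
    rw [le_div_iff₀ hq2]
    calc ((AS H g {x | (∀ i, κ i ≤ x i) ∧ κ l + η ≤ x l} X).ncard : ℝ) * (2 * q)
        ≤ Real.exp ((2 - s') * X + (√8 * q + 1) * V) * Real.exp (Real.log (2 * q)) :=
          mul_le_mul (hU' l) (by rw [Real.exp_log hq2]) hq2.le (Real.exp_pos _).le
      _ = Real.exp ((2 - s') * X + (√8 * q + 1) * V + Real.log (2 * q)) := by
          rw [← Real.exp_add]
      _ ≤ L := by
          rw [hL']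
          apply Real.exp_le_exp.2
          have h2 : √8 * q * V ≤ 3 * q * V := by
            apply mul_le_mul_of_nonneg_right _ hV0.le
            exact mul_le_mul_of_nonneg_right s8 (by linarith)
          nlinarith
  have hsub : AS H g {x | ∀ l, κ l ≤ x l} X ⊆
      (AS H g {x | ∀ l, κ l ≤ x l ∧ x l ≤ κ l + η} X) ∪
      ⋃ l : Fin q, AS H g {x | (∀ i, κ i ≤ x i) ∧ κ l + η ≤ x l} X := by
    rintro t ⟨g2, g3⟩
    by_cases hc : ∀ l, g t l ≤ κ l + η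
    · exact Or.inl ⟨g2, fun l => ⟨g3 l, hc l⟩⟩
    · push Not at hc
      obtain ⟨l, hl⟩ := hc
      exact Or.inr (Set.mem_iUnion.2 ⟨l, g2, g3, hl.le⟩)
  have hfinU : (⋃ l : Fin q, AS H g {x | (∀ i, κ i ≤ x i) ∧ κ l + η ≤ x l} X).Finite :=
    Set.finite_iUnion fun _ => as_finite hfin _ _
  have hc1 := Set.ncard_le_ncard hsub ((as_finite hfin _ _).union hfinU)
  have hc2 := Set.ncard_union_le (AS H g {x | ∀ l, κ l ≤ x l ∧ x l ≤ κ l + η} X)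
    (⋃ l : Fin q, AS H g {x | (∀ i, κ i ≤ x i) ∧ κ l + η ≤ x l} X)
  have hc3 : (⋃ l : Fin q, AS H g {x | (∀ i, κ i ≤ x i) ∧ κ l + η ≤ x l} X).ncard ≤
      ∑ l : Fin q, (AS H g {x | (∀ i, κ i ≤ x i) ∧ κ l + η ≤ x l} X).ncard := by
    have := Finset.set_ncard_biUnion_le (univ : Finset (Fin q))
      (fun l => AS H g {x | (∀ i, κ i ≤ x i) ∧ κ l + η ≤ x l} X)
    simpa using this
  have hc4 : ((AS H g {x | ∀ l, κ l ≤ x l} X).ncard : ℝ) ≤
      ((AS H g {x | ∀ l, κ l ≤ x l ∧ x l ≤ κ l + η} X).ncard : ℝ) +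
      ∑ l : Fin q, ((AS H g {x | (∀ i, κ i ≤ x i) ∧ κ l + η ≤ x l} X).ncard : ℝ) := by
    exact_mod_cast hc1.trans (hc2.trans (Nat.add_le_add_left hc3 _))
  have hc5 : ∑ l : Fin q, ((AS H g {x | (∀ i, κ i ≤ x i) ∧ κ l + η ≤ x l} X).ncard : ℝ) ≤
      L / 2 := by
    refine (Finset.sum_le_sum fun l _ => hsmall l).trans ?_
    rw [Finset.sum_const, Finset.card_univ, Fintype.card_fin, nsmul_eq_mul]
    have : (q : ℝ) * (L / (2 * q)) = L / 2 := by field_simp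
    rw [this]
  have hc6 : L / 2 ≤ ((AS H g {x | ∀ l, κ l ≤ x l ∧ x l ≤ κ l + η} X).ncard : ℝ) := by
    linarith
  refine le_trans ?_ hc6
  rw [le_div_iff₀ (by norm_num : (0 : ℝ) < 2)]
  calc Real.exp ((2 - s) * X + (√8 * (∑ l, √(κ l)) - ε) * V) * 2
      ≤ Real.exp ((2 - s) * X + (√8 * (∑ l, √(κ l)) - ε) * V) * Real.exp 1 :=
        mul_le_mul_of_nonneg_left hexp1 (Real.exp_pos _).le
    _ = Real.exp ((2 - s) * X + (√8 * (∑ l, √(κ l)) - ε) * V + 1) := by rw [← Real.exp_add]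
    _ ≤ L := by
        rw [hL']
        apply Real.exp_le_exp.2
        nlinarith

theorem ab_box (hfin : ∀ X : ℝ, {p | H p ≤ X}.Finite) (hg0 : ∀ p l, 0 ≤ g p l)
    (hg1 : ∀ p l, g p l ≤ 1) (hU : UB H g κ₁) (hL : LB H g κ₁) (hκ₁ : κ₁ ≤ 1)
    {E : Set (Fin q → ℝ)} {κ : Fin q → ℝ} (hκ0 : ∀ l, 0 ≤ κ l) (hκs : 0 < ∑ l, κ l)
    (hκs1 : ∑ l, κ l < κ₁) {η : ℝ} (hη : 0 < η)
    (hE : ∀ g : Fin q → ℝ, (∀ l, κ l ≤ g l ∧ g l ≤ κ l + η) → g ∈ E) {ε : ℝ} (hε : 0 < ε) :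
    ∃ X₀ : ℝ, 1 < X₀ ∧ ∀ X : ℝ, X₀ ≤ X →
      Real.exp ((2 - ∑ l, κ l) * X + (√8 * (∑ l, √(κ l)) - ε) * √(X / Real.log X)) ≤
        ((AS H g E X).ncard : ℝ) := by
  obtain ⟨X₀, hX₀, h⟩ := ab_lo hfin hg0 hg1 hU hL hκ₁ hκ0 hκs hκs1 hη hε
  refine ⟨X₀, hX₀, fun X hX => (h X hX).trans ?_⟩
  have hsub : AS H g {x | ∀ l, κ l ≤ x l ∧ x l ≤ κ l + η} X ⊆ AS H g E X := by
    rintro t ⟨g2, g3⟩
    exact ⟨g2, hE _ g3⟩
  exact_mod_cast Set.ncard_le_ncard hsub (as_finite hfin _ _)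

theorem sgposq {κ : Fin q → ℝ} (hκ0 : ∀ l, 0 ≤ κ l) (hκs : 0 < ∑ l, κ l) :
    0 < ∑ l, √(κ l) := by
  have h0 : 0 ≤ ∑ l, √(κ l) := Finset.sum_nonneg fun _ _ => Real.sqrt_nonneg _
  refine lt_of_le_of_ne h0 fun h => ?_
  have h1 := (Finset.sum_eq_zero_iff_of_nonneg (fun l _ => Real.sqrt_nonneg (κ l))).1 h.symm
  have h2 : ∑ l, κ l = 0 := by
    refine Finset.sum_eq_zero fun l hl => ?_
    exact (Real.sqrt_eq_zero (hκ0 l)).1 (h1 l hl)
  linarith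

/-- the strict inequality away from the maximisers -/
theorem strict {E : Set (Fin q → ℝ)} (hE : IsClosed E) {κ : Fin q → ℝ} (hκ0 : ∀ l, 0 ≤ κ l)
    (hκs : 0 < ∑ l, κ l)
    (h2 : ∀ g ∈ E, (∀ l, 0 ≤ g l) → (∀ l, g l ≤ 1) → ∑ l, g l = ∑ l, κ l →
      ∑ l, √(g l) ≤ ∑ l, √(κ l)) {U : Set (Fin q → ℝ)} (hU : IsOpen U)
    (h3 : ∀ g ∈ E, (∀ l, 0 ≤ g l) → (∀ l, g l ≤ 1) → ∑ l, g l = ∑ l, κ l →
      ∑ l, √(g l) = ∑ l, √(κ l) → g ∈ U) :
    ∃ w : ℝ, 0 ≤ w ∧ w < ∑ l, √(κ l) ∧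
      ∀ g ∈ E \ U, (∀ l, 0 ≤ g l) → (∀ l, g l ≤ 1) → ∑ l, g l = ∑ l, κ l → ∑ l, √(g l) ≤ w := by
  obtain ⟨Q, hQ⟩ : ∃ Q : Set (Fin q → ℝ), Q = (Set.univ.pi fun _ => Set.Icc (0 : ℝ) 1) ∩
    ((E \ U) ∩ {g | ∑ l, g l = ∑ l, κ l}) := ⟨_, rfl⟩
  have hmem : ∀ g, g ∈ Q ↔ ((∀ l, 0 ≤ g l) ∧ (∀ l, g l ≤ 1)) ∧ (g ∈ E ∧ g ∉ U) ∧
      ∑ l, g l = ∑ l, κ l := by
    intro g
    rw [hQ]
    constructor
    · rintro ⟨h1, h2, h3⟩
      exact ⟨⟨fun l => (h1 l trivial).1, fun l => (h1 l trivial).2⟩, h2, h3⟩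
    · rintro ⟨⟨h1, h2⟩, h3, h4⟩
      exact ⟨fun l _ => ⟨h1 l, h2 l⟩, h3, h4⟩
  have hcl : IsClosed {g : Fin q → ℝ | ∑ l, g l = ∑ l, κ l} :=
    isClosed_eq (by fun_prop) continuous_const
  have hEU : IsClosed (E \ U) := hE.sdiff hU
  have hc : IsCompact Q := by
    rw [hQ]
    exact (isCompact_univ_pi fun _ => isCompact_Icc).inter_right (hEU.inter hcl)
  have hpos := sgposq hκ0 hκs
  rcases Q.eq_empty_or_nonempty with he | hne
  · refine ⟨0, le_rfl, hpos, fun g hg g0 g1 g2 => ?_⟩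
    have : g ∈ Q := (hmem g).2 ⟨⟨g0, g1⟩, hg, g2⟩
    rw [he] at this
    exact this.elim
  · obtain ⟨g₀, hg₀, hmax⟩ := hc.exists_isMaxOn hne
      (f := fun g : Fin q → ℝ => ∑ l, √(g l)) (by fun_prop)
    obtain ⟨⟨a0, a1⟩, ⟨a2, a3⟩, a4⟩ := (hmem g₀).1 hg₀
    refine ⟨∑ l, √(g₀ l), Finset.sum_nonneg fun _ _ => Real.sqrt_nonneg _, ?_,
      fun g hg g0 g1 g2 => hmax ((hmem g).2 ⟨⟨g0, g1⟩, hg, g2⟩)⟩
    refine lt_of_le_of_ne (h2 g₀ a2 a0 a1 a4) fun h => ?_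
    exact a3 (h3 g₀ a2 a0 a1 a4 h)

end Run7.h585.LD.Abs
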