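import Pool.Agent.Run7.h585.LD.Abs

/-!
# Large deviations from bounds for orthants: the limit and the typical structure (abstract form)

Written by helper585.
-/

set_option autoImplicit false

namespace Run7.h585.LD.Abs

open Finset Filter Topology

variable {P : Type} {q : ℕ} {H : P → ℝ} {g : P → Fin q → ℝ} {κ₁ : ℝ}

/-- the limit for a closed set which contains a box at a maximiser -/
theorem ab_lim (hfin : ∀ X : ℝ, {p | H p ≤ X}.Finite) (hg0 : ∀ p l, 0 ≤ g p l)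
    (hg1 : ∀ p l, g p l ≤ 1) (hU : UB H g κ₁) (hL : LB H g κ₁) (hκ₁ : κ₁ ≤ 1)
    {E : Set (Fin q → ℝ)} (hE : IsClosed E) {κ : Fin q → ℝ} (hκ0 : ∀ l, 0 ≤ κ l)
    (hκs : 0 < ∑ l, κ l) (hκs1 : ∑ l, κ l < κ₁) {η : ℝ} (hη : 0 < η)
    (hb : ∀ g : Fin q → ℝ, (∀ l, κ l ≤ g l ∧ g l ≤ κ l + η) → g ∈ E)
    (h1 : ∀ g ∈ E, (∀ l, 0 ≤ g l) → (∀ l, g l ≤ 1) → ∑ l, κ l ≤ ∑ l, g l)
    (h2 : ∀ g ∈ E, (∀ l, 0 ≤ g l) → (∀ l, g l ≤ 1) → ∑ l, g l = ∑ l, κ l →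
      ∑ l, √(g l) ≤ ∑ l, √(κ l)) :
    Tendsto (fun X : ℝ => (Real.log ((AS H g E X).ncard : ℝ) - (2 - ∑ l, κ l) * X) /
      √(X / Real.log X)) atTop (𝓝 (√8 * ∑ l, √(κ l))) := by
  rw [Metric.tendsto_atTop']
  intro ε hε
  obtain ⟨X₁, -, hu⟩ := ab_up hfin hg0 hg1 hU hE hκs.le hκs1 hκ₁ (w := ∑ l, √(κ l))
    (Finset.sum_nonneg fun _ _ => Real.sqrt_nonneg _) h1 h2 (half_pos hε)
  obtain ⟨X₂, -, hl⟩ := ab_box hfin hg0 hg1 hU hL hκ₁ hκ0 hκs hκs1 hη hb (half_pos hε)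
  refine ⟨max (max X₁ X₂) 2, fun X hX => ?_⟩
  have hX1 : X₁ ≤ X := (le_max_left _ _).trans ((le_max_left _ _).trans hX.le)
  have hX2 : X₂ ≤ X := (le_max_right _ _).trans ((le_max_left _ _).trans hX.le)
  have hX3 : 2 ≤ X := (le_max_right _ _).trans hX.le
  have g1 := hu X hX1
  have g2 := hl X hX2
  have hV0 : 0 < √(X / Real.log X) :=
    Real.sqrt_pos.2 (div_pos (by linarith) (Real.log_pos (by linarith)))
  obtain ⟨V, hV⟩ : ∃ V : ℝ, V = √(X / Real.log X) := ⟨_, rfl⟩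
  obtain ⟨N, hN⟩ : ∃ N : ℝ, N = ((AS H g E X).ncard : ℝ) := ⟨_, rfl⟩
  rw [← hV, ← hN] at g1 g2
  rw [← hV] at hV0
  have hN0 : 0 < N := (Real.exp_pos _).trans_le g2
  rw [← Real.log_le_iff_le_exp hN0] at g1
  rw [← Real.le_log_iff_exp_le hN0] at g2
  rw [← hV, ← hN, Real.dist_eq, abs_lt]
  obtain ⟨W, hW⟩ : ∃ W : ℝ, W = √8 * ∑ l, √(κ l) := ⟨_, rfl⟩
  rw [← hW] at g1 g2 ⊢
  have e1 : W - ε / 2 ≤ (Real.log N - (2 - ∑ l, κ l) * X) / V := by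
    rw [le_div_iff₀ hV0]
    linarith
  have e2 : (Real.log N - (2 - ∑ l, κ l) * X) / V ≤ W + ε / 2 := by
    rw [div_le_iff₀ hV0]
    linarith
  constructor <;> linarith

/-- the typical structure -/
theorem ab_conc (hfin : ∀ X : ℝ, {p | H p ≤ X}.Finite) (hg0 : ∀ p l, 0 ≤ g p l)
    (hg1 : ∀ p l, g p l ≤ 1) (hUB : UB H g κ₁) (hLB : LB H g κ₁) (hκ₁ : κ₁ ≤ 1)
    {E : Set (Fin q → ℝ)} (hE : IsClosed E) {κ : Fin q → ℝ} (hκ0 : ∀ l, 0 ≤ κ l)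
    (hκs : 0 < ∑ l, κ l) (hκs1 : ∑ l, κ l < κ₁) {η : ℝ} (hη : 0 < η)
    (hb : ∀ g : Fin q → ℝ, (∀ l, κ l ≤ g l ∧ g l ≤ κ l + η) → g ∈ E)
    (h1 : ∀ g ∈ E, (∀ l, 0 ≤ g l) → (∀ l, g l ≤ 1) → ∑ l, κ l ≤ ∑ l, g l)
    (h2 : ∀ g ∈ E, (∀ l, 0 ≤ g l) → (∀ l, g l ≤ 1) → ∑ l, g l = ∑ l, κ l →
      ∑ l, √(g l) ≤ ∑ l, √(κ l)) {U : Set (Fin q → ℝ)} (hU : IsOpen U)
    (h3 : ∀ g ∈ E, (∀ l, 0 ≤ g l) → (∀ l, g l ≤ 1) → ∑ l, g l = ∑ l, κ l →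
      ∑ l, √(g l) = ∑ l, √(κ l) → g ∈ U) :
    ∃ δ : ℝ, 0 < δ ∧ ∃ X₀ : ℝ, 1 < X₀ ∧ ∀ X : ℝ, X₀ ≤ X →
      ((AS H g (E \ U) X).ncard : ℝ) ≤
        Real.exp (-(δ * √(X / Real.log X))) * ((AS H g E X).ncard : ℝ) := by
  have hEU : IsClosed (E \ U) := hE.sdiff hU
  obtain ⟨w, hw0, hw1, hw2⟩ := strict hE hκ0 hκs h2 hU h3
  obtain ⟨ε, hε⟩ : ∃ ε : ℝ, ε = √8 * (∑ l, √(κ l) - w) / 4 := ⟨_, rfl⟩
  have hε0 : 0 < ε := by
    rw [hε]
    have := mul_pos s80 (sub_pos.2 hw1)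
    linarith
  obtain ⟨X₁, hX₁, hu⟩ := ab_up hfin hg0 hg1 hUB hEU hκs.le hκs1 hκ₁ hw0
    (fun g hg => h1 g hg.1) hw2 hε0
  obtain ⟨X₂, hX₂, hl⟩ := ab_box hfin hg0 hg1 hUB hLB hκ₁ hκ0 hκs hκs1 hη hb hε0
  refine ⟨2 * ε, by linarith, max X₁ X₂, lt_max_of_lt_left hX₁, fun X hX => ?_⟩
  have g1 := hu X ((le_max_left _ _).trans hX)
  have g2 := hl X ((le_max_right _ _).trans hX)
  obtain ⟨V, hV⟩ : ∃ V : ℝ, V = √(X / Real.log X) := ⟨_, rfl⟩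
  rw [← hV] at g1 g2 ⊢
  have g3 := mul_le_mul_of_nonneg_left g2 (Real.exp_pos (-(2 * ε * V))).le
  refine le_trans ?_ g3
  rw [← Real.exp_add]
  refine g1.trans (Real.exp_le_exp.2 (le_of_eq ?_))
  have : √8 * ∑ l, √(κ l) = √8 * w + 4 * ε := by rw [hε]; ring
  rw [this]
  ring

/-! ### The passage from `X = d L` to `L` -/

theorem ratio' {d : ℝ} (hd : 0 < d) :
    Tendsto (fun L : ℝ => √(d * L / Real.log (d * L)) / √(L / Real.log L)) atTop (𝓝 (√d)) := by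
  have hlog : Tendsto (fun L : ℝ => Real.log d / Real.log L) atTop (𝓝 0) :=
    Real.tendsto_log_atTop.const_div_atTop _
  have h1 : Tendsto (fun L : ℝ => d / (Real.log d / Real.log L + 1)) atTop (𝓝 (d / (0 + 1))) :=
    tendsto_const_nhds.div (hlog.add tendsto_const_nhds) (by norm_num)
  rw [zero_add, div_one] at h1
  have h2 := (Real.continuous_sqrt.tendsto d).comp h1
  refine h2.congr' ?_
  filter_upwards [eventually_gt_atTop (1 : ℝ), eventually_gt_atTop (1 / d)] with L hL hL2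
  have hl : 0 < Real.log L := Real.log_pos hL
  have hL0 : 0 < L := by linarith
  have hdL : 1 < d * L := by
    rw [div_lt_iff₀ hd] at hL2
    linarith
  have hl2 : 0 < Real.log (d * L) := Real.log_pos hdL
  have h3 : Real.log (d * L) = Real.log d + Real.log L := Real.log_mul hd.ne' hL0.ne'
  simp only [Function.comp]
  rw [← Real.sqrt_div (by positivity)]
  congr 1
  rw [h3] at hl2 ⊢
  field_simp

theorem lim_scale {d : ℝ} (hd : 0 < d) {N : ℝ → ℝ} {e c : ℝ}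
    (h : Tendsto (fun X : ℝ => (Real.log (N X) - e * X) / √(X / Real.log X)) atTop (𝓝 c)) :
    Tendsto (fun L : ℝ => (Real.log (N (d * L)) - d * e * L) / √(L / Real.log L)) atTop
      (𝓝 (√d * c)) := by
  have h1 := h.comp (tendsto_id.const_mul_atTop hd)
  have h2 := (ratio' hd).mul h1
  refine h2.congr' ?_
  filter_upwards [eventually_gt_atTop (1 : ℝ), eventually_gt_atTop (1 / d)] with L hL hL2
  have hl : 0 < Real.log L := Real.log_pos hL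
  have hL0 : 0 < L := by linarith
  have hdL : 1 < d * L := by
    rw [div_lt_iff₀ hd] at hL2
    linarith
  have hl2 : 0 < Real.log (d * L) := Real.log_pos hdL
  have hV : 0 < √(d * L / Real.log (d * L)) := Real.sqrt_pos.2 (by positivity)
  simp only [Function.comp, id]
  have e1 : e * (d * L) = d * e * L := by ring
  rw [e1]
  field_simp

theorem exp_scale {d : ℝ} (hd : 0 < d) {N M : ℝ → ℝ} (hM : ∀ X, 0 ≤ M X) {δ X₀ : ℝ} (hδ : 0 < δ)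
    (h : ∀ X : ℝ, X₀ ≤ X → N X ≤ Real.exp (-(δ * √(X / Real.log X))) * M X) :
    ∃ δ' : ℝ, 0 < δ' ∧ ∃ L₀ : ℝ, ∀ L : ℝ, L₀ ≤ L →
      N (d * L) ≤ Real.exp (-(δ' * √(L / Real.log L))) * M (d * L) := by
  have hd0 : 0 < √d := Real.sqrt_pos.2 hd
  have h1 := (ratio' hd).eventually (lt_mem_nhds (show √d / 2 < √d by linarith))
  obtain ⟨L₁, hL₁⟩ := eventually_atTop.1 h1
  refine ⟨δ * (√d / 2), by positivity, max (max L₁ 2) (X₀ / d), fun L hL => ?_⟩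
  have hL2 : 2 ≤ L := (le_max_right _ _).trans ((le_max_left _ _).trans hL)
  have hL3 : X₀ ≤ d * L := by
    have := (le_max_right _ _).trans hL
    rw [div_le_iff₀ hd] at this
    linarith
  have h2 := hL₁ L ((le_max_left _ _).trans ((le_max_left _ _).trans hL))
  have hV : 0 < √(L / Real.log L) :=
    Real.sqrt_pos.2 (div_pos (by linarith) (Real.log_pos (by linarith)))
  rw [lt_div_iff₀ hV] at h2
  refine (h _ hL3).trans (mul_le_mul_of_nonneg_right ?_ (hM _))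
  apply Real.exp_le_exp.2
  have := mul_le_mul_of_nonneg_left h2.le hδ.le
  linarith

end Run7.h585.LD.Abs
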