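import Pool.Agent.Run7.h585.LD.Ups

/-!
# Large deviations of the pair (height, gains)

`four_up` bounds the number of the abc triples for which the point `(log c / Y, gains)` lies in a
closed set.

Written by helper585.
-/

set_option autoImplicit false

namespace Run7.h585.LD

open Finset Filter Topology

theorem cpt4 {Q : Set (ℝ × (Fin 3 → ℝ))} (hQ : IsClosed Q) {B L w : ℝ}
    (h1 : ∀ μ g, (μ, g) ∈ Q → 0 ≤ μ → μ ≤ B → (∀ l, 0 ≤ g l) → (∀ l, g l ≤ 1) →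
      (2 - ∑ l, g l) * μ ≤ L)
    (h2 : ∀ μ g, (μ, g) ∈ Q → 0 ≤ μ → μ ≤ B → (∀ l, 0 ≤ g l) → (∀ l, g l ≤ 1) →
      (2 - ∑ l, g l) * μ = L → ∑ l, √(g l * μ) ≤ w)
    {ε : ℝ} (hε : 0 < ε) : ∃ η : ℝ, 0 < η ∧ ∀ μ g, (μ, g) ∈ Q → 0 ≤ μ → μ ≤ B →
      (∀ l, 0 ≤ g l) → (∀ l, g l ≤ 1) → L - η < (2 - ∑ l, g l) * μ →
      ∑ l, √(g l * μ) ≤ w + ε := by
  obtain ⟨R, hR⟩ : ∃ R : Set (ℝ × (Fin 3 → ℝ)), R =
    (Set.Icc (0 : ℝ) B ×ˢ (Set.univ.pi fun _ => Set.Icc (0 : ℝ) 1)) ∩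
    (Q ∩ {x | w + ε ≤ ∑ l, √(x.2 l * x.1)}) := ⟨_, rfl⟩
  have hmem : ∀ μ g, (μ, g) ∈ R ↔ ((0 ≤ μ ∧ μ ≤ B) ∧ (∀ l, 0 ≤ g l) ∧ (∀ l, g l ≤ 1)) ∧
      (μ, g) ∈ Q ∧ w + ε ≤ ∑ l, √(g l * μ) := by
    intro μ g
    rw [hR]
    constructor
    · rintro ⟨⟨h1, h2⟩, h3, h4⟩
      exact ⟨⟨h1, fun l => (h2 l trivial).1, fun l => (h2 l trivial).2⟩, h3, h4⟩
    · rintro ⟨⟨h0, h1, h2⟩, h3, h4⟩
      exact ⟨⟨h0, fun l _ => ⟨h1 l, h2 l⟩⟩, h3, h4⟩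
  have hcl : IsClosed {x : ℝ × (Fin 3 → ℝ) | w + ε ≤ ∑ l, √(x.2 l * x.1)} :=
    isClosed_le continuous_const (by fun_prop)
  have hc : IsCompact R := by
    rw [hR]
    exact (isCompact_Icc.prod (isCompact_univ_pi fun _ => isCompact_Icc)).inter_right
      (hQ.inter hcl)
  rcases R.eq_empty_or_nonempty with he | hne
  · refine ⟨1, one_pos, fun μ g hg a b h0 h1 _ => ?_⟩
    by_contra h
    have : (μ, g) ∈ R := (hmem μ g).2 ⟨⟨⟨a, b⟩, h0, h1⟩, hg, by linarith⟩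
    rw [he] at this
    exact this
  · obtain ⟨⟨μ₀, g₀⟩, hg₀, hmax⟩ := hc.exists_isMaxOn hne
      (f := fun x : ℝ × (Fin 3 → ℝ) => (2 - ∑ l, x.2 l) * x.1) (by fun_prop)
    obtain ⟨⟨⟨a0, a1⟩, a2, a3⟩, a4, a5⟩ := (hmem μ₀ g₀).1 hg₀
    have b1 := h1 μ₀ g₀ a4 a0 a1 a2 a3
    have b2 : (2 - ∑ l, g₀ l) * μ₀ < L := by
      refine lt_of_le_of_ne b1 fun h => ?_
      have := h2 μ₀ g₀ a4 a0 a1 a2 a3 h
      linarith
    refine ⟨L - (2 - ∑ l, g₀ l) * μ₀, by linarith, fun μ g hg a b h0 h1 h2 => ?_⟩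
    by_contra h
    have h3 : (μ, g) ∈ R := (hmem μ g).2 ⟨⟨⟨a, b⟩, h0, h1⟩, hg, by linarith⟩
    have h4 : (2 - ∑ l, g l) * μ ≤ (2 - ∑ l, g₀ l) * μ₀ := hmax h3
    linarith

/-- comparison of the second order terms -/
theorem vn {n z Y e : ℝ} (hn : 3 ≤ n) (hnz : n ≤ z * (Y + 1))
    (ha : √(8 * (z * (Y + 1) / Real.log (z * (Y + 1)))) ≤ (1 + e) * (√z * √(8 * Y / Real.log Y))) :
    √(n / Real.log n) ≤ (1 + e) * (√z * √(Y / Real.log Y)) := by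
  have hexp : Real.exp 1 ≤ 3 := by
    have := Real.exp_one_lt_d9
    linarith
  have h1 : Real.log (z * (Y + 1)) / (z * (Y + 1)) ≤ Real.log n / n :=
    Real.log_div_self_antitoneOn (hexp.trans hn) ((hexp.trans hn).trans hnz) hnz
  have hn0 : 0 < n := by linarith
  have hz0 : 0 < z * (Y + 1) := by linarith
  have hl0 : 0 < Real.log (z * (Y + 1)) := Real.log_pos (by linarith)
  have hln : 0 < Real.log n := Real.log_pos (by linarith)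
  have h2 : n / Real.log n ≤ z * (Y + 1) / Real.log (z * (Y + 1)) := by
    rw [div_le_div_iff₀ hln hl0]
    rw [div_le_div_iff₀ hz0 hn0] at h1
    linarith
  have h3 : √8 * √(n / Real.log n) ≤ √8 * ((1 + e) * (√z * √(Y / Real.log Y))) := by
    calc √8 * √(n / Real.log n) ≤ √8 * √(z * (Y + 1) / Real.log (z * (Y + 1))) :=
          mul_le_mul_of_nonneg_left (Real.sqrt_le_sqrt h2) (Real.sqrt_nonneg _)
      _ = √(8 * (z * (Y + 1) / Real.log (z * (Y + 1)))) := (Real.sqrt_mul (by norm_num) _).symm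
      _ ≤ (1 + e) * (√z * √(8 * Y / Real.log Y)) := ha
      _ = _ := by
          rw [mul_div_assoc, Real.sqrt_mul (by norm_num)]
          ring
  exact le_of_mul_le_mul_left h3 s80

/-- the triples with the point `(log c / Y, gains)` in `Q` and `log c ≤ B Y` -/
def T4 (Q : Set (ℝ × (Fin 3 → ℝ))) (B Y : ℝ) : Set (ℕ × ℕ × ℕ) :=
  {t | IsT t ∧ Real.log t.2.2 ≤ B * Y ∧ (Real.log t.2.2 / Y, gn t) ∈ Q}

theorem c_le {t : ℕ × ℕ × ℕ} (ht : IsT t) {Z : ℝ} : (t.2.2 : ℝ) ≤ Real.exp Z ↔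
    Real.log t.2.2 ≤ Z := by
  have : (0 : ℝ) < t.2.2 := by
    have := two_le_c ht
    exact_mod_cast (by omega : 0 < t.2.2)
  exact (Real.log_le_iff_le_exp this).symm

theorem t4_finite (Q : Set (ℝ × (Fin 3 → ℝ))) (B Y : ℝ) : (T4 Q B Y).Finite :=
  (ts_finite Set.univ (Real.exp (B * Y))).subset fun _ ht => ⟨ht.1, (c_le ht.1).2 ht.2.1, trivial⟩

/-- the bound for one cell -/
theorem cell_bound {δ ε₁ B L w η X₁ : ℝ} (hδ0 : 0 < δ) (hδ1 : δ ≤ 1 / 2) (hε₁ : 0 < ε₁)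
    (hε₁1 : ε₁ ≤ 1) (hB : 0 < B) (hw : 0 ≤ w)
    {Q : Set (ℝ × (Fin 3 → ℝ))}
    (hη : ∀ μ g, (μ, g) ∈ Q → 0 ≤ μ → μ ≤ B →
      (∀ l, 0 ≤ g l) → (∀ l, g l ≤ 1) → L - η < (2 - ∑ l, g l) * μ →
      ∑ l, √(g l * μ) ≤ w + ε₁)
    (h1 : ∀ μ g, (μ, g) ∈ Q → 0 ≤ μ → μ ≤ B → (∀ l, 0 ≤ g l) → (∀ l, g l ≤ 1) →
      (2 - ∑ l, g l) * μ ≤ L)
    (hup : ∀ X : ℝ, X₁ ≤ X → ∀ κ : Fin 3 → ℝ, (∀ l, 0 ≤ κ l) →
      ∑ l, κ l ≤ 1 - δ → ∀ F : Finset (ℕ × ℕ × ℕ),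
      (∀ t ∈ F, IsT t ∧ (t.2.2 : ℝ) ≤ Real.exp X ∧ ∀ l, κ l ≤ gn t l) →
      (F.card : ℝ) ≤ Real.exp ((2 - ∑ l, κ l) * X + ∑ l, √(8 * κ l * X / Real.log X) +
        ε₁ * √(X / Real.log X)))
    {Y V : ℝ} (hY : 1 ≤ Y) (hYζ : 1 ≤ ε₁ ^ 2 * (Y + 1)) (hV : V = √(Y / Real.log Y))
    (ha : ∀ z : ℝ, ε₁ ^ 2 ≤ z → √(8 * (z * (Y + 1) / Real.log (z * (Y + 1)))) ≤
      (1 + ε₁) * (√z * √(8 * Y / Real.log Y)))
    (hv1 : (3 * B + 2) + (100 * (B + 1)) * V ≤ η * Y)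
    (hv2 : 2 + (100 * (B + 1)) * V ≤ (L - (1 + δ) * B) * Y)
    {n N : ℕ} (hn3 : (3 : ℝ) ≤ n) (hnX : X₁ ≤ n) (hNY : Y ≤ N) (m : Fin 3 → ℕ)
    (F : Finset (ℕ × ℕ × ℕ)) (t₀ : ℕ × ℕ × ℕ) (ht₀ : t₀ ∈ F)
    (hF : ∀ t ∈ F, IsT t ∧ Real.log t.2.2 ≤ B * Y ∧ (Real.log t.2.2 / Y, gn t) ∈ Q ∧
      (n : ℝ) - 1 ≤ Real.log t.2.2 ∧ Real.log t.2.2 ≤ n ∧
      ∀ l, (m l : ℝ) ≤ gn t l * N ∧ gn t l * N ≤ (m l : ℝ) + 1) :
    (F.card : ℝ) ≤ Real.exp (L * Y + (3 * B + 2) + ((1 + ε₁) * (w + 4 * ε₁) * √8 +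
      2 * (B + 2) * ε₁) * V) := by
  have hY0 : 0 < Y := by linarith
  have hN0 : (0 : ℝ) < N := by linarith
  have hV0 : 0 ≤ V := by rw [hV]; exact Real.sqrt_nonneg _
  obtain ⟨hT₀, hB₀, hQ₀, hn₀, hn₁, hm₀⟩ := hF t₀ ht₀
  obtain ⟨g, hg⟩ : ∃ g : Fin 3 → ℝ, g = gn t₀ := ⟨_, rfl⟩
  obtain ⟨μ, hμ⟩ : ∃ μ : ℝ, μ = Real.log t₀.2.2 / Y := ⟨_, rfl⟩
  have hμY : μ * Y = Real.log t₀.2.2 := by rw [hμ, div_mul_cancel₀ _ hY0.ne']
  rw [← hμ, ← hg] at hQ₀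
  rw [← hμY] at hn₀ hn₁ hB₀
  have hμ0 : 0 ≤ μ := by rw [hμ]; exact div_nonneg (log_c_pos hT₀).le hY0.le
  have hμB : μ ≤ B := le_of_mul_le_mul_right hB₀ hY0
  have hg0 : ∀ l, 0 ≤ g l := fun l => by rw [hg]; exact gn0 hT₀ l
  have hg1 : ∀ l, g l ≤ 1 := fun l => by rw [hg]; exact gn1 hT₀ l
  obtain ⟨κ, hκ⟩ : ∃ κ : Fin 3 → ℝ, κ = fun l => (m l : ℝ) / N := ⟨_, rfl⟩
  have hκ0 : ∀ l, 0 ≤ κ l := fun l => by rw [hκ]; positivity
  have hκt : ∀ t ∈ F, ∀ l, κ l ≤ gn t l := by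
    intro t ht l
    obtain ⟨-, -, -, -, -, h6⟩ := hF t ht
    rw [hκ]
    simp only
    rw [div_le_iff₀ hN0]
    exact (h6 l).1
  have hκg : ∀ l, κ l ≤ g l := fun l => by rw [hg]; exact hκt t₀ ht₀ l
  have hgκ : ∀ l, g l ≤ κ l + 1 / Y := by
    intro l
    have e1 : g l * N ≤ (m l : ℝ) + 1 := by rw [hg]; exact (hm₀ l).2
    have e2 : g l ≤ ((m l : ℝ) + 1) / N := by
      rw [le_div_iff₀ hN0]
      exact e1
    have e3 : (1 : ℝ) / N ≤ 1 / Y := div_le_div_of_nonneg_left one_pos.le hY0 hNY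
    rw [hκ]
    rw [add_div] at e2
    simp only
    linarith
  have hsum1 : ∑ l, g l ≤ ∑ l, κ l + 3 / Y := by
    have := Finset.sum_le_sum fun l (_ : l ∈ (univ : Finset (Fin 3))) => hgκ l
    rw [Finset.sum_add_distrib, Finset.sum_const, Finset.card_univ, Fintype.card_fin,
      nsmul_eq_mul] at this
    have e : ((3 : ℕ) : ℝ) * (1 / Y) = 3 / Y := by push_cast; ring
    rwa [e] at this
  have hFX : ∀ t ∈ F, IsT t ∧ (t.2.2 : ℝ) ≤ Real.exp n := by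
    intro t ht
    obtain ⟨e1, -, -, -, e5, -⟩ := hF t ht
    exact ⟨e1, (c_le e1).2 e5⟩
  -- the second order term
  obtain ⟨z, hz⟩ : ∃ z : ℝ, z = μ + ε₁ ^ 2 := ⟨_, rfl⟩
  have hz1 : ε₁ ^ 2 ≤ z := by rw [hz]; linarith
  have hnz : (n : ℝ) ≤ z * (Y + 1) := by
    rw [hz]
    have e : (μ + ε₁ ^ 2) * (Y + 1) = μ * Y + μ + ε₁ ^ 2 * (Y + 1) := by ring
    rw [e]
    linarith
  have hVn := vn hn3 hnz (ha z hz1)
  rw [← hV] at hVn
  obtain ⟨Vn, hVn'⟩ : ∃ Vn : ℝ, Vn = √((n : ℝ) / Real.log n) := ⟨_, rfl⟩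
  rw [← hVn'] at hVn
  have hVn0 : 0 ≤ Vn := by rw [hVn']; exact Real.sqrt_nonneg _
  have hsz : √z ≤ √μ + ε₁ := by
    rw [hz]
    apply Real.sqrt_le_iff.2
    have e1 := Real.sqrt_nonneg μ
    have e2 := Real.sq_sqrt hμ0
    refine ⟨by positivity, ?_⟩
    nlinarith
  have hVn2 : Vn ≤ (1 + ε₁) * ((√μ + ε₁) * V) := by
    refine hVn.trans ?_
    apply mul_le_mul_of_nonneg_left _ (by positivity)
    exact mul_le_mul_of_nonneg_right hsz hV0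
  have hsB : √μ ≤ B + 1 := by
    apply Real.sqrt_le_iff.2
    refine ⟨by linarith, ?_⟩
    nlinarith
  have hsqμ := Real.sqrt_nonneg μ
  have hVn3 : Vn ≤ 2 * ((B + 2) * V) := by
    refine hVn2.trans ?_
    apply mul_le_mul (by linarith) _ (by positivity) (by norm_num)
    exact mul_le_mul_of_nonneg_right (by linarith) hV0
  have h80 : 0 ≤ √(8 : ℝ) := Real.sqrt_nonneg _
  have h81 := s8
  have hsqs : ∀ κ' : Fin 3 → ℝ, (∀ l, 0 ≤ κ' l) →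
      ∑ l, √(8 * κ' l * n / Real.log n) = √8 * (∑ l, √(κ' l)) * Vn := by
    intro κ' hκ'
    rw [sqs hκ', ← hVn']
  -- crude bound of the second order term
  have hcrude : ∀ κ' : Fin 3 → ℝ, (∀ l, 0 ≤ κ' l) → (∀ l, κ' l ≤ 1) →
      √8 * (∑ l, √(κ' l)) * Vn + ε₁ * Vn ≤ (40 * (B + 1)) * V := by
    intro κ' h0 h1
    have e1 : √8 * (∑ l, √(κ' l)) * Vn ≤ 3 * 3 * Vn := by
      apply mul_le_mul_of_nonneg_right _ hVn0
      exact mul_le_mul h81 (sg_le h1) (Finset.sum_nonneg fun _ _ => Real.sqrt_nonneg _)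
        (by norm_num)
    have e2 : ε₁ * Vn ≤ 1 * Vn := mul_le_mul_of_nonneg_right hε₁1 hVn0
    have e3 : 10 * Vn ≤ 10 * (2 * ((B + 2) * V)) := mul_le_mul_of_nonneg_left hVn3 (by norm_num)
    have e4 : 0 ≤ B * V := mul_nonneg hB.le hV0
    nlinarith
  have hwterm : 0 ≤ ((1 + ε₁) * (w + 4 * ε₁) * √8 + 2 * (B + 2) * ε₁) * V := by positivity
  by_cases hcase : ∑ l, κ l ≤ 1 - δ
  · have e1 := hup n hnX κ hκ0 hcase F (fun t ht => ⟨(hFX t ht).1, (hFX t ht).2, hκt t ht⟩)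
    refine e1.trans ?_
    rw [hsqs κ hκ0, ← hVn']
    apply Real.exp_le_exp.2
    have e2 : (2 - ∑ l, κ l) * n ≤ (2 - ∑ l, g l) * (μ * Y) + (3 * B + 2) := by
      have f1 : (2 - ∑ l, κ l) * n ≤ (2 - ∑ l, κ l) * (μ * Y + 1) :=
        mul_le_mul_of_nonneg_left (by linarith) (by linarith)
      have f2 : (2 - ∑ l, κ l) * (μ * Y) ≤ (2 - ∑ l, g l + 3 / Y) * (μ * Y) :=
        mul_le_mul_of_nonneg_right (by linarith) (mul_nonneg hμ0 hY0.le)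
      have f3 : 3 / Y * (μ * Y) = 3 * μ := by field_simp
      have f4 : 0 ≤ ∑ l, κ l := Finset.sum_nonneg fun l _ => hκ0 l
      nlinarith
    have e2' : (2 - ∑ l, g l) * (μ * Y) = (2 - ∑ l, g l) * μ * Y := by ring
    rw [e2'] at e2
    have hκ1 : ∀ l, κ l ≤ 1 := fun l => (hκg l).trans (hg1 l)
    by_cases hc2 : L - η < (2 - ∑ l, g l) * μ
    · have e3 := hη μ g hQ₀ hμ0 hμB hg0 hg1 hc2
      have e4 := h1 μ g hQ₀ hμ0 hμB hg0 hg1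
      have e5 : (2 - ∑ l, g l) * μ * Y ≤ L * Y := mul_le_mul_of_nonneg_right e4 hY0.le
      -- the main second order bound
      have e6 : (∑ l, √(κ l)) * (√μ + ε₁) ≤ w + 4 * ε₁ := by
        have f1 : (∑ l, √(κ l)) * √μ ≤ ∑ l, √(g l * μ) := by
          rw [Finset.sum_mul]
          refine Finset.sum_le_sum fun l _ => ?_
          rw [← Real.sqrt_mul (hκ0 l)]
          exact Real.sqrt_le_sqrt (mul_le_mul_of_nonneg_right (hκg l) hμ0)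
        have f2 : (∑ l, √(κ l)) * ε₁ ≤ 3 * ε₁ := mul_le_mul_of_nonneg_right (sg_le hκ1) hε₁.le
        linarith
      have e7 : √8 * (∑ l, √(κ l)) * Vn ≤ (1 + ε₁) * (w + 4 * ε₁) * √8 * V := by
        have f0 : 0 ≤ ∑ l, √(κ l) := Finset.sum_nonneg fun _ _ => Real.sqrt_nonneg _
        calc √8 * (∑ l, √(κ l)) * Vn ≤ √8 * (∑ l, √(κ l)) * ((1 + ε₁) * ((√μ + ε₁) * V)) :=
              mul_le_mul_of_nonneg_left hVn2 (by positivity)
          _ = (1 + ε₁) * ((∑ l, √(κ l)) * (√μ + ε₁)) * √8 * V := by ring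
          _ ≤ (1 + ε₁) * (w + 4 * ε₁) * √8 * V := by
              apply mul_le_mul_of_nonneg_right _ hV0
              apply mul_le_mul_of_nonneg_right _ h80
              exact mul_le_mul_of_nonneg_left e6 (by positivity)
      have e8 : ε₁ * Vn ≤ 2 * (B + 2) * ε₁ * V := by
        have := mul_le_mul_of_nonneg_left hVn3 hε₁.le
        linarith
      have e9 : ((1 + ε₁) * (w + 4 * ε₁) * √8 + 2 * (B + 2) * ε₁) * V =
          (1 + ε₁) * (w + 4 * ε₁) * √8 * V + 2 * (B + 2) * ε₁ * V := by ring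
      rw [e9]
      linarith
    · push Not at hc2
      have e3 : (2 - ∑ l, g l) * μ * Y ≤ (L - η) * Y := mul_le_mul_of_nonneg_right hc2 hY0.le
      have e4 := hcrude κ hκ0 hκ1
      have e5 : 0 ≤ (60 * (B + 1)) * V := by positivity
      linarith
  · push Not at hcase
    obtain ⟨r, hr⟩ : ∃ r : ℝ, r = 1 - δ := ⟨_, rfl⟩
    have hr0 : 0 < r := by rw [hr]; linarith
    rw [← hr] at hcase
    have hκp : 0 < ∑ l, κ l := by linarith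
    obtain ⟨θ, hθ⟩ : ∃ θ : ℝ, θ = r / ∑ l, κ l := ⟨_, rfl⟩
    have hθ0 : 0 < θ := by rw [hθ]; positivity
    have hθ1 : θ ≤ 1 := by rw [hθ, div_le_one hκp]; exact hcase.le
    have hle : ∀ l, θ * κ l ≤ κ l := by
      intro l
      have := mul_le_mul_of_nonneg_right hθ1 (hκ0 l)
      linarith
    have hsm : ∑ l, θ * κ l = r := by
      rw [← Finset.mul_sum, hθ, div_mul_cancel₀ _ hκp.ne']
    have h0 : ∀ l, 0 ≤ θ * κ l := fun l => mul_nonneg hθ0.le (hκ0 l)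
    have e1 := hup n hnX (fun l => θ * κ l) h0 (by rw [hsm, hr]) F
      (fun t ht => ⟨(hFX t ht).1, (hFX t ht).2, fun l => (hle l).trans (hκt t ht l)⟩)
    refine e1.trans ?_
    rw [hsqs _ h0, hsm, ← hVn']
    apply Real.exp_le_exp.2
    have e2 := hcrude (fun l => θ * κ l) h0 (fun l => (hle l).trans ((hκg l).trans (hg1 l)))
    have e3 : (2 - r) * n ≤ (1 + δ) * B * Y + 2 := by
      have f1 : (2 - r) * (n : ℝ) ≤ (1 + δ) * (B * Y + 1) := by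
        rw [hr]
        have : (2 - (1 - δ)) = 1 + δ := by ring
        rw [this]
        exact mul_le_mul_of_nonneg_left (by linarith) (by linarith)
      nlinarith
    have e5 : 0 ≤ (60 * (B + 1)) * V := by positivity
    have e6 : 0 ≤ 3 * B + 2 := by positivity
    linarith

/-- the large deviation bound for the pair (height, gains) -/
theorem four_up {Q : Set (ℝ × (Fin 3 → ℝ))} (hQ : IsClosed Q) {B L w : ℝ} (hB : 0 < B)
    (hBL : B < L) (hw : 0 ≤ w)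
    (h1 : ∀ μ g, (μ, g) ∈ Q → 0 ≤ μ → μ ≤ B → (∀ l, 0 ≤ g l) → (∀ l, g l ≤ 1) →
      (2 - ∑ l, g l) * μ ≤ L)
    (h2 : ∀ μ g, (μ, g) ∈ Q → 0 ≤ μ → μ ≤ B → (∀ l, 0 ≤ g l) → (∀ l, g l ≤ 1) →
      (2 - ∑ l, g l) * μ = L → ∑ l, √(g l * μ) ≤ w)
    {ε : ℝ} (hε : 0 < ε) : ∃ Y₀ : ℝ, 1 < Y₀ ∧ ∀ Y : ℝ, Y₀ ≤ Y →
      ((T4 Q B Y).ncard : ℝ) ≤ Real.exp (L * Y + (√8 * w + ε) * √(Y / Real.log Y)) := by
  classical
  obtain ⟨D, hD⟩ : ∃ D : ℝ, D = 3 * (w + 8) + 2 * (B + 2) := ⟨_, rfl⟩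
  have hD0 : 0 < D := by rw [hD]; positivity
  obtain ⟨ε₁, hε₁⟩ : ∃ ε₁ : ℝ, ε₁ = min 1 (ε / (2 * D)) := ⟨_, rfl⟩
  have hε₁0 : 0 < ε₁ := by rw [hε₁]; exact lt_min one_pos (by positivity)
  have hε₁1 : ε₁ ≤ 1 := by rw [hε₁]; exact min_le_left _ _
  have hε₁2 : ε₁ * D ≤ ε / 2 := by
    have : ε₁ ≤ ε / (2 * D) := by rw [hε₁]; exact min_le_right _ _
    rw [le_div_iff₀ (by positivity)] at this
    linarith
  have hconst : (1 + ε₁) * (w + 4 * ε₁) * √8 + 2 * (B + 2) * ε₁ ≤ √8 * w + ε / 2 := by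
    have e1 : (1 + ε₁) * (w + 4 * ε₁) * √8 = √8 * w + √8 * (ε₁ * (w + 4 + 4 * ε₁)) := by ring
    have e2 : √8 * (ε₁ * (w + 4 + 4 * ε₁)) ≤ 3 * (ε₁ * (w + 8)) := by
      apply mul_le_mul s8 _ (by positivity) (by norm_num)
      exact mul_le_mul_of_nonneg_left (by linarith) hε₁0.le
    have e3 : ε₁ * D = 3 * (ε₁ * (w + 8)) + 2 * (B + 2) * ε₁ := by rw [hD]; ring
    linarith
  obtain ⟨η, hη0, hη⟩ := cpt4 hQ h1 h2 hε₁0
  obtain ⟨δ, hδ⟩ : ∃ δ : ℝ, δ = min (1 / 2) ((L - B) / (2 * B)) := ⟨_, rfl⟩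
  have hδ0 : 0 < δ := by
    rw [hδ]
    exact lt_min (by norm_num) (div_pos (by linarith) (by linarith))
  have hδ1 : δ ≤ 1 / 2 := by rw [hδ]; exact min_le_left _ _
  have hδ2 : 0 < L - (1 + δ) * B := by
    have e1 : δ ≤ (L - B) / (2 * B) := by rw [hδ]; exact min_le_right _ _
    rw [le_div_iff₀ (by positivity)] at e1
    linarith
  obtain ⟨X₁, hX₁, hup⟩ := up_orth hδ0 hε₁0
  obtain ⟨X₂, hX₂⟩ : ∃ X₂ : ℝ, X₂ = max X₁ 3 := ⟨_, rfl⟩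
  obtain ⟨K, hK⟩ : ∃ K : ℝ, K = ((TS Set.univ (Real.exp X₂)).ncard : ℝ) + 1 := ⟨_, rfl⟩
  have hK0 : 0 < K := by rw [hK]; positivity
  obtain ⟨A, hA⟩ : ∃ A : ℝ, A = (B + 2) * Real.exp (3 * B + 2) := ⟨_, rfl⟩
  have hA2 : 2 ≤ A := by
    rw [hA]
    have e1 : (1 : ℝ) ≤ Real.exp (3 * B + 2) := Real.one_le_exp (by positivity)
    nlinarith
  have ev := (Pool.Agent.N575.QP.poly (A := A) (η := ε / 6) (by positivity) (by linarith) 4).and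
    ((((vsmall (3 * B + 2) (100 * (B + 1)) η hη0).and (vsmall 2 (100 * (B + 1))
      (L - (1 + δ) * B) hδ2)).and
      ((Real.tendsto_log_atTop.eventually_ge_atTop 1))).and
      (((a1u (pow_pos hε₁0 2) hε₁0).and (eventually_ge_atTop (1 / ε₁ ^ 2))).and
      (eventually_ge_atTop (Real.log K / L))))
  obtain ⟨Y₀, hY₀⟩ := eventually_atTop.1 ev
  refine ⟨max Y₀ 2, lt_max_of_lt_right (by norm_num), fun Y hY => ?_⟩
  obtain ⟨hpoly, ⟨⟨hv1, hv2⟩, hlY⟩, ⟨ha, hYζ⟩, hYK⟩ := hY₀ Y ((le_max_left _ _).trans hY)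
  have hY2 : 2 ≤ Y := (le_max_right _ _).trans hY
  have hY0 : 0 < Y := by linarith
  have hYζ' : 1 ≤ ε₁ ^ 2 * (Y + 1) := by
    rw [div_le_iff₀ (pow_pos hε₁0 2)] at hYζ
    nlinarith [pow_pos hε₁0 2]
  have hL0 : 0 < L := by linarith
  have hKY : K ≤ Real.exp (L * Y) := by
    rw [← Real.log_le_iff_le_exp hK0]
    rw [div_le_iff₀ hL0] at hYK
    linarith
  obtain ⟨V, hV⟩ : ∃ V : ℝ, V = √(Y / Real.log Y) := ⟨_, rfl⟩
  have hV0 : 0 ≤ V := by rw [hV]; exact Real.sqrt_nonneg _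
  rw [← hV] at hv1 hv2 ⊢
  have hW : √(8 * Y / Real.log Y) ≤ 3 * V := by
    rw [hV, mul_div_assoc, Real.sqrt_mul (by norm_num)]
    exact mul_le_mul_of_nonneg_right s8 (Real.sqrt_nonneg _)
  obtain ⟨N, hN⟩ : ∃ N : ℕ, N = ⌈Y⌉₊ := ⟨_, rfl⟩
  have hN1 : Y ≤ N := by rw [hN]; exact Nat.le_ceil Y
  have hN2 : (N : ℝ) ≤ Y + 1 := by rw [hN]; exact (Nat.ceil_lt_add_one hY0.le).le
  have hN0 : (0 : ℝ) < N := by linarith
  obtain ⟨NB, hNB⟩ : ∃ NB : ℕ, NB = ⌈B * Y⌉₊ := ⟨_, rfl⟩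
  have hNB1 : B * Y ≤ NB := by rw [hNB]; exact Nat.le_ceil _
  have hNB2 : (NB : ℝ) ≤ B * Y + 1 := by
    rw [hNB]; exact (Nat.ceil_lt_add_one (by positivity)).le
  obtain ⟨F, hF⟩ : ∃ F : Finset (ℕ × ℕ × ℕ), F = (t4_finite Q B Y).toFinset := ⟨_, rfl⟩
  have hFm : ∀ t ∈ F, IsT t ∧ Real.log t.2.2 ≤ B * Y ∧ (Real.log t.2.2 / Y, gn t) ∈ Q := by
    intro t ht
    rw [hF, Set.Finite.mem_toFinset] at ht
    exact ht
  rw [Set.ncard_eq_toFinset_card _ (t4_finite Q B Y), ← hF]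
  obtain ⟨cell, hcell⟩ : ∃ cell : ℕ × ℕ × ℕ → ℕ × (Fin 3 → ℕ),
      cell = fun t => (⌈Real.log t.2.2⌉₊, fun l => ⌊gn t l * N⌋₊) := ⟨_, rfl⟩
  obtain ⟨Bd, hBd⟩ : ∃ Bd : ℝ, Bd = Real.exp (L * Y + (3 * B + 2) + (√8 * w + ε / 2) * V) :=
    ⟨_, rfl⟩
  have hBd0 : 0 < Bd := by rw [hBd]; exact Real.exp_pos _
  have hmaps : ∀ t ∈ F, cell t ∈ range (NB + 1) ×ˢ
      Fintype.piFinset (fun _ : Fin 3 => range (N + 1)) := by
    intro t ht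
    obtain ⟨e1, e2, e3⟩ := hFm t ht
    rw [mem_product, Fintype.mem_piFinset]
    refine ⟨?_, fun l => ?_⟩
    · rw [mem_range, Nat.lt_succ_iff, hcell]
      exact Nat.ceil_le.2 (e2.trans hNB1)
    · rw [mem_range, Nat.lt_succ_iff, hcell]
      apply Nat.floor_le_of_le
      have h1 := gn1 e1 l
      nlinarith
  have hwV : 0 ≤ √8 * w * V := by positivity
  have hfib : ∀ m ∈ range (NB + 1) ×ˢ Fintype.piFinset (fun _ : Fin 3 => range (N + 1)),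
      ((#{t ∈ F | cell t = m} : ℕ) : ℝ) ≤ Bd := by
    rintro ⟨n, m⟩ _
    rcases ({t ∈ F | cell t = (n, m)} : Finset _).eq_empty_or_nonempty with he | ⟨t₀, ht₀⟩
    · rw [he, card_empty, Nat.cast_zero]
      exact hBd0.le
    have hcellm : ∀ t ∈ ({t ∈ F | cell t = (n, m)} : Finset _), IsT t ∧
        Real.log t.2.2 ≤ B * Y ∧ (Real.log t.2.2 / Y, gn t) ∈ Q ∧
        (n : ℝ) - 1 ≤ Real.log t.2.2 ∧ Real.log t.2.2 ≤ n ∧
        ∀ l, (m l : ℝ) ≤ gn t l * N ∧ gn t l * N ≤ (m l : ℝ) + 1 := by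
      intro t ht
      rw [mem_filter, hcell, Prod.mk.injEq] at ht
      obtain ⟨e0, e1, e2⟩ := ht
      obtain ⟨f1, f2, f3⟩ := hFm t e0
      refine ⟨f1, f2, f3, ?_, ?_, fun l => ?_⟩
      · rw [← e1]
        have := Nat.ceil_lt_add_one (log_c_pos f1).le
        linarith
      · rw [← e1]
        exact Nat.le_ceil _
      · rw [← e2]
        exact ⟨Nat.floor_le (mul_nonneg (gn0 f1 l) hN0.le), (Nat.lt_floor_add_one _).le⟩
    by_cases hn : X₂ ≤ (n : ℝ)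
    · have e1 := cell_bound (w := w) hδ0 hδ1 hε₁0 hε₁1 hB hw hη h1 hup (by linarith) hYζ' hV ha
        hv1 hv2 (n := n) (N := N) ((le_max_right X₁ 3).trans (by rw [← hX₂]; exact hn))
        ((le_max_left X₁ 3).trans (by rw [← hX₂]; exact hn)) hN1 m _ t₀ ht₀ hcellm
      refine e1.trans ?_
      rw [hBd]
      apply Real.exp_le_exp.2
      have := mul_le_mul_of_nonneg_right hconst hV0
      linarith
    · push Not at hn
      have e1 : (({t ∈ F | cell t = (n, m)} : Finset _) : Set (ℕ × ℕ × ℕ)) ⊆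
          TS Set.univ (Real.exp X₂) := by
        intro t ht
        obtain ⟨f1, -, -, -, f5, -⟩ := hcellm t (mem_coe.1 ht)
        exact ⟨f1, (c_le f1).2 (by linarith), trivial⟩
      have e2 := Set.ncard_le_ncard e1 (ts_finite _ _)
      rw [Set.ncard_coe_finset] at e2
      have e3 : ((#{t ∈ F | cell t = (n, m)} : ℕ) : ℝ) ≤ K := by
        rw [hK]
        have : ((#{t ∈ F | cell t = (n, m)} : ℕ) : ℝ) ≤
            ((TS Set.univ (Real.exp X₂)).ncard : ℝ) := by exact_mod_cast e2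
        linarith
      refine e3.trans (hKY.trans ?_)
      rw [hBd]
      apply Real.exp_le_exp.2
      have : 0 ≤ (√8 * w + ε / 2) * V := by positivity
      linarith
  have hcardF : (F.card : ℝ) ≤ ((NB : ℝ) + 1) * ((N : ℝ) + 1) ^ 3 * Bd := by
    rw [card_eq_sum_card_fiberwise (f := cell)
      (t := range (NB + 1) ×ˢ Fintype.piFinset (fun _ : Fin 3 => range (N + 1))) hmaps]
    push_cast
    refine (Finset.sum_le_sum hfib).trans ?_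
    rw [Finset.sum_const, card_product, Fintype.card_piFinset, Finset.prod_const, card_range,
      card_range, Finset.card_univ, Fintype.card_fin, nsmul_eq_mul]
    push_cast
    exact le_rfl
  have hNp : ((NB : ℝ) + 1) * ((N : ℝ) + 1) ^ 3 * Real.exp (3 * B + 2) ≤
      Real.exp (ε / 2 * V) := by
    have e1 : (0 : ℝ) ≤ NB := Nat.cast_nonneg _
    calc ((NB : ℝ) + 1) * ((N : ℝ) + 1) ^ 3 * Real.exp (3 * B + 2)
        ≤ ((B + 2) * (Y + 2)) * (Y + 2) ^ 3 * Real.exp (3 * B + 2) := by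
          apply mul_le_mul_of_nonneg_right _ (Real.exp_pos _).le
          apply mul_le_mul _ _ (by positivity) (by positivity)
          · nlinarith
          · exact pow_le_pow_left₀ (by positivity) (by linarith) _
      _ = A * (Y + 2) ^ 4 := by rw [hA]; ring
      _ ≤ A * (Y + A) ^ 4 := by
          apply mul_le_mul_of_nonneg_left _ (by linarith)
          exact pow_le_pow_left₀ (by linarith) (by linarith) _
      _ ≤ _ := hpoly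
      _ ≤ _ := by
          apply Real.exp_le_exp.2
          have := mul_le_mul_of_nonneg_left hW (show 0 ≤ ε / 6 by positivity)
          linarith
  refine hcardF.trans ?_
  have hB' : Bd = Real.exp (3 * B + 2) * Real.exp (L * Y + (√8 * w + ε / 2) * V) := by
    rw [hBd, ← Real.exp_add]
    congr 1
    ring
  rw [hB', ← mul_assoc]
  calc ((NB : ℝ) + 1) * ((N : ℝ) + 1) ^ 3 * Real.exp (3 * B + 2) *
        Real.exp (L * Y + (√8 * w + ε / 2) * V)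
      ≤ Real.exp (ε / 2 * V) * Real.exp (L * Y + (√8 * w + ε / 2) * V) :=
        mul_le_mul_of_nonneg_right hNp (Real.exp_pos _).le
    _ = Real.exp (L * Y + (√8 * w + ε) * V) := by
        rw [← Real.exp_add]
        congr 1
        ring

end Run7.h585.LD
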