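import Pool.Agent.Run7.h585.LD.Four
import Pool.Agent.Run7.h151.FR.Large

/-!
# The atypical exceptions to Oesterlé's inequality, ordered by radical

Written by helper585.
-/

set_option autoImplicit false

namespace Run7.h585.LD

open Finset Filter Topology

/-- the atypical points -/
def QR (M η : ℝ) : Set (ℝ × (Fin 3 → ℝ)) :=
  {x | (3 - ∑ l, x.2 l) * x.1 ≤ 1 ∧ M * ((3 - ∑ l, x.2 l) * x.1) ≤ x.1 ∧
    (η ≤ |x.1 - M| ∨ ∃ l, η ≤ |(1 - x.2 l) * x.1 - 1 / 3|)}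

theorem qr_closed (M η : ℝ) : IsClosed (QR M η) := by
  have e : QR M η = {x : ℝ × (Fin 3 → ℝ) | (3 - ∑ l, x.2 l) * x.1 ≤ 1} ∩
      ({x : ℝ × (Fin 3 → ℝ) | M * ((3 - ∑ l, x.2 l) * x.1) ≤ x.1} ∩
      ({x : ℝ × (Fin 3 → ℝ) | η ≤ |x.1 - M|} ∪
        ⋃ l, {x : ℝ × (Fin 3 → ℝ) | η ≤ |(1 - x.2 l) * x.1 - 1 / 3|})) := by
    ext x
    simp [QR]
  rw [e]
  refine (isClosed_le (by fun_prop) continuous_const).inter
    ((isClosed_le (by fun_prop) (by fun_prop)).inter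
      ((isClosed_le continuous_const (by fun_prop)).union
        (isClosed_iUnion_of_finite fun l => isClosed_le continuous_const (by fun_prop))))

/-- the maximisers of the first order term -/
theorem qr_max {M μ : ℝ} {g : Fin 3 → ℝ} (_hM : 0 < M) (hM1 : M < 1)
    (h1 : (3 - ∑ l, g l) * μ ≤ 1) (h2 : M * ((3 - ∑ l, g l) * μ) ≤ μ) :
    (2 - ∑ l, g l) * μ ≤ 1 - M ∧
      ((2 - ∑ l, g l) * μ = 1 - M → μ = M ∧ ∑ l, g l * M = 3 * M - 1) := by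
  obtain ⟨R, hR⟩ : ∃ R : ℝ, R = (3 - ∑ l, g l) * μ := ⟨_, rfl⟩
  rw [← hR] at h1 h2
  have h3 : (2 - ∑ l, g l) * μ = R - μ := by rw [hR]; ring
  rw [h3]
  refine ⟨by nlinarith, fun h => ?_⟩
  have h4 : μ = M := by
    apply le_antisymm
    · linarith
    · have : R = μ + (1 - M) := by linarith
      rw [this] at h2
      by_contra hc
      push Not at hc
      nlinarith
  refine ⟨h4, ?_⟩
  rw [← Finset.sum_mul]
  have h5 : R = 1 := by linarith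
  rw [h5, h4] at hR
  linarith

/-- Cauchy-Schwarz with equality -/
theorem cs3 {h : Fin 3 → ℝ} (h0 : ∀ l, 0 ≤ h l) {s : ℝ} (hs0 : 0 < s) (hs : ∑ l, h l = s) :
    ∑ l, √(h l) ≤ √(3 * s) ∧ (∑ l, √(h l) = √(3 * s) → ∀ l, h l = s / 3) := by
  have e1 : √(s / 3) * √(3 * s) = s := by
    rw [← Real.sqrt_mul (by positivity), show s / 3 * (3 * s) = s * s by ring,
      Real.sqrt_mul_self hs0.le]
  have h3 : 0 < √(s / 3) := Real.sqrt_pos.2 (by positivity)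
  have h1 : ∑ l, (√(h l) - √(s / 3)) ^ 2 = 2 * s - 2 * √(s / 3) * ∑ l, √(h l) := by
    have : ∀ l, (√(h l) - √(s / 3)) ^ 2 = h l + s / 3 - 2 * √(s / 3) * √(h l) := by
      intro l
      have e2 := Real.sq_sqrt (h0 l)
      have e3 := Real.sq_sqrt (show 0 ≤ s / 3 by positivity)
      calc (√(h l) - √(s / 3)) ^ 2 = √(h l) ^ 2 + √(s / 3) ^ 2 - 2 * √(s / 3) * √(h l) := by ring
        _ = _ := by rw [e2, e3]
    simp only [this]
    rw [Finset.sum_sub_distrib, Finset.sum_add_distrib, hs, ← Finset.mul_sum, Finset.sum_const,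
      Finset.card_univ, Fintype.card_fin, nsmul_eq_mul]
    push_cast
    ring
  have h2 : 0 ≤ ∑ l, (√(h l) - √(s / 3)) ^ 2 := Finset.sum_nonneg fun _ _ => sq_nonneg _
  constructor
  · have h5 : √(s / 3) * ∑ l, √(h l) ≤ √(s / 3) * √(3 * s) := by linarith
    exact le_of_mul_le_mul_left h5 h3
  · intro he l
    have h5 : ∑ l, (√(h l) - √(s / 3)) ^ 2 = 0 := by
      rw [h1, he]
      linarith
    have h6 := (Finset.sum_eq_zero_iff_of_nonneg (fun l _ => sq_nonneg _)).1 h5 l (mem_univ l)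
    have h7 : √(h l) = √(s / 3) := by
      have := pow_eq_zero_iff (two_ne_zero) |>.1 h6
      linarith
    rw [← Real.sq_sqrt (h0 l), h7, Real.sq_sqrt (by positivity)]

/-- the second order term of the atypical points is smaller -/
theorem qr_w {M η : ℝ} (hM : 1 / 3 < M) (hM1 : M < 1) (hη : 0 < η) :
    ∃ w : ℝ, 0 ≤ w ∧ w < √(3 * (3 * M - 1)) ∧ ∀ μ g, (μ, g) ∈ QR M η → 0 ≤ μ → μ ≤ 3 / 7 →
      (∀ l, 0 ≤ g l) → (∀ l, g l ≤ 1) → (2 - ∑ l, g l) * μ = 1 - M → ∑ l, √(g l * μ) ≤ w := by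
  have hpos : 0 < √(3 * (3 * M - 1)) := Real.sqrt_pos.2 (by linarith)
  obtain ⟨R, hR⟩ : ∃ R : Set (ℝ × (Fin 3 → ℝ)), R =
    (Set.Icc (0 : ℝ) (3 / 7) ×ˢ (Set.univ.pi fun _ => Set.Icc (0 : ℝ) 1)) ∩
    (QR M η ∩ {x | (2 - ∑ l, x.2 l) * x.1 = 1 - M}) := ⟨_, rfl⟩
  have hmem : ∀ μ g, (μ, g) ∈ R ↔ ((0 ≤ μ ∧ μ ≤ 3 / 7) ∧ (∀ l, 0 ≤ g l) ∧ (∀ l, g l ≤ 1)) ∧
      (μ, g) ∈ QR M η ∧ (2 - ∑ l, g l) * μ = 1 - M := by
    intro μ g
    rw [hR]
    constructor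
    · rintro ⟨⟨h1, h2⟩, h3, h4⟩
      exact ⟨⟨h1, fun l => (h2 l trivial).1, fun l => (h2 l trivial).2⟩, h3, h4⟩
    · rintro ⟨⟨h0, h1, h2⟩, h3, h4⟩
      exact ⟨⟨h0, fun l _ => ⟨h1 l, h2 l⟩⟩, h3, h4⟩
  have hcl : IsClosed {x : ℝ × (Fin 3 → ℝ) | (2 - ∑ l, x.2 l) * x.1 = 1 - M} :=
    isClosed_eq (by fun_prop) continuous_const
  have hc : IsCompact R := by
    rw [hR]
    exact (isCompact_Icc.prod (isCompact_univ_pi fun _ => isCompact_Icc)).inter_right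
      ((qr_closed M η).inter hcl)
  rcases R.eq_empty_or_nonempty with he | hne
  · refine ⟨0, le_rfl, hpos, fun μ g hg a b h0 h1 h2 => ?_⟩
    have : (μ, g) ∈ R := (hmem μ g).2 ⟨⟨⟨a, b⟩, h0, h1⟩, hg, h2⟩
    rw [he] at this
    exact this.elim
  · obtain ⟨⟨μ₀, g₀⟩, hg₀, hmax⟩ := hc.exists_isMaxOn hne
      (f := fun x : ℝ × (Fin 3 → ℝ) => ∑ l, √(x.2 l * x.1)) (by fun_prop)
    obtain ⟨⟨⟨a0, a1⟩, a2, a3⟩, a4, a5⟩ := (hmem μ₀ g₀).1 hg₀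
    refine ⟨∑ l, √(g₀ l * μ₀), Finset.sum_nonneg fun _ _ => Real.sqrt_nonneg _, ?_,
      fun μ g hg a b h0 h1 h2 => hmax ((hmem μ g).2 ⟨⟨⟨a, b⟩, h0, h1⟩, hg, h2⟩)⟩
    have b1 : (3 - ∑ l, g₀ l) * μ₀ ≤ 1 := a4.1
    have b2 : M * ((3 - ∑ l, g₀ l) * μ₀) ≤ μ₀ := a4.2.1
    have b3 : η ≤ |μ₀ - M| ∨ ∃ l, η ≤ |(1 - g₀ l) * μ₀ - 1 / 3| := a4.2.2
    obtain ⟨-, c1⟩ := qr_max (by linarith) hM1 b1 b2
    obtain ⟨c2, c3⟩ := c1 a5
    rw [c2]
    obtain ⟨d1, d2⟩ := cs3 (h := fun l => g₀ l * M)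
      (fun l => mul_nonneg (a2 l) (by linarith)) (s := 3 * M - 1) (by linarith) c3
    refine lt_of_le_of_ne d1 fun he => ?_
    have d3 := d2 he
    rcases b3 with h | ⟨l, h⟩
    · rw [c2, sub_self, abs_zero] at h
      linarith
    · have : (1 - g₀ l) * μ₀ - 1 / 3 = 0 := by
        rw [c2]
        have := d3 l
        linarith
      rw [this, abs_zero] at h
      linarith

theorem rd_mul {a b c : ℕ} (ha : a ≠ 0) (hb : b ≠ 0) (hc : c ≠ 0) (h1 : Nat.Coprime a b)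
    (h2 : Nat.Coprime a c) (h3 : Nat.Coprime b c) :
    rd (a * b * c) = rd a * rd b * rd c := by
  unfold rd
  rw [Nat.primeFactors_mul (mul_ne_zero ha hb) hc, Nat.primeFactors_mul ha hb,
    Finset.prod_union, Finset.prod_union h1.disjoint_primeFactors]
  rw [Finset.disjoint_union_left]
  exact ⟨h2.disjoint_primeFactors, h3.disjoint_primeFactors⟩

theorem log_rd3 {t : ℕ × ℕ × ℕ} (ht : IsT t) :
    Real.log (rd (t.1 * t.2.1 * t.2.2)) = (3 - ∑ l, gn t l) * Real.log t.2.2 := by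
  have h0 := log_rd ht 0
  have h1 := log_rd ht 1
  have h2 := log_rd ht 2
  have hT := ht
  obtain ⟨a, b, c⟩ := t
  obtain ⟨g1, g2, g3, g4⟩ := ht
  simp only at g1 g2 g3 g4
  have h5 : Nat.Coprime a c := by
    rw [← g4]
    simpa using g3
  have h6 : Nat.Coprime b c := by
    rw [← g4]
    simpa using g3.symm
  have e0 : Pool.Agent.N348.QP.mm a b 0 = a := rfl
  have e1 : Pool.Agent.N348.QP.mm a b 1 = b := rfl
  have e2 : Pool.Agent.N348.QP.mm a b 2 = a + b := rfl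
  simp only at h0 h1 h2
  rw [e0] at h0
  rw [e1] at h1
  rw [e2, g4] at h2
  simp only
  rw [rd_mul g1.ne' g2.ne' (by omega) g3 h5 h6]
  push_cast
  have p0 : (rd a : ℝ) ≠ 0 := by exact_mod_cast (rd_pos a).ne'
  have p1 : (rd b : ℝ) ≠ 0 := by exact_mod_cast (rd_pos b).ne'
  have p2 : (rd c : ℝ) ≠ 0 := by exact_mod_cast (rd_pos c).ne'
  rw [Real.log_mul (mul_ne_zero p0 p1) p2, Real.log_mul p0 p1, h0, h1, h2, Fin.sum_univ_three]
  ring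

/-- the triple of a pair -/
def tr (p : ℕ × ℕ) : ℕ × ℕ × ℕ := (p.1, p.2, p.1 + p.2)

theorem tr_inj : Function.Injective tr := by
  rintro ⟨a, b⟩ ⟨a', b'⟩ h
  simp only [tr, Prod.mk.injEq] at h
  rw [h.1, h.2.1]

/-- the exceptions with `c ≤ e^Z` -/
def Ex (M Y Z : ℝ) (p : ℕ × ℕ) : Prop :=
  0 < p.1 ∧ p.1 ≤ p.2 ∧ Nat.Coprime p.1 p.2 ∧ (rd (p.1 * p.2 * (p.1 + p.2)) : ℝ) ≤ Real.exp Y ∧
    (rd (p.1 * p.2 * (p.1 + p.2)) : ℝ) ^ M ≤ ((p.1 + p.2 : ℕ) : ℝ) ∧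
    ((p.1 + p.2 : ℕ) : ℝ) ≤ Real.exp Z

/-- typical sizes -/
def Typ (M η Y : ℝ) (p : ℕ × ℕ) : Prop :=
  (Real.exp ((M - η) * Y) < ((p.1 + p.2 : ℕ) : ℝ) ∧
    ((p.1 + p.2 : ℕ) : ℝ) < Real.exp ((M + η) * Y)) ∧
  ∀ n ∈ ({p.1, p.2, p.1 + p.2} : Set ℕ), Real.exp ((1 / 3 - η) * Y) < rd n ∧
    (rd n : ℝ) < Real.exp ((1 / 3 + η) * Y)

theorem not_typ {M η Y : ℝ} (hY : 0 < Y) {p : ℕ × ℕ} (hT : IsT (tr p)) (h : ¬ Typ M η Y p) :
    η ≤ |Real.log (tr p).2.2 / Y - M| ∨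
      ∃ l, η ≤ |(1 - gn (tr p) l) * (Real.log (tr p).2.2 / Y) - 1 / 3| := by
  by_contra hc
  push Not at hc
  obtain ⟨h1, h2⟩ := hc
  apply h
  have hc0 : (0 : ℝ) < ((p.1 + p.2 : ℕ) : ℝ) := by
    have : 2 ≤ p.1 + p.2 := two_le_c hT
    exact_mod_cast (by omega : 0 < p.1 + p.2)
  have e : (((tr p).2.2 : ℕ) : ℝ) = ((p.1 + p.2 : ℕ) : ℝ) := rfl
  rw [abs_lt, e] at h1
  obtain ⟨a1, a2⟩ := h1
  refine ⟨⟨?_, ?_⟩, ?_⟩
  · rw [← Real.lt_log_iff_exp_lt hc0, ← lt_div_iff₀ hY]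
    linarith
  · rw [← Real.log_lt_iff_lt_exp hc0, ← div_lt_iff₀ hY]
    linarith
  · have key : ∀ l : Fin 3, Real.exp ((1 / 3 - η) * Y) < rd (Pool.Agent.N348.QP.mm p.1 p.2 l) ∧
        (rd (Pool.Agent.N348.QP.mm p.1 p.2 l) : ℝ) < Real.exp ((1 / 3 + η) * Y) := by
      intro l
      have h3 := h2 l
      have h4 : Real.log (rd (Pool.Agent.N348.QP.mm p.1 p.2 l)) =
          (1 - gn (tr p) l) * Real.log (tr p).2.2 := log_rd hT l
      have h5 : (1 - gn (tr p) l) * (Real.log (tr p).2.2 / Y) =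
          Real.log (rd (Pool.Agent.N348.QP.mm p.1 p.2 l)) / Y := by
        rw [h4]
        ring
      rw [h5, abs_lt] at h3
      obtain ⟨b1, b2⟩ := h3
      have hr0 : (0 : ℝ) < rd (Pool.Agent.N348.QP.mm p.1 p.2 l) := by exact_mod_cast rd_pos _
      constructor
      · rw [← Real.lt_log_iff_exp_lt hr0, ← lt_div_iff₀ hY]
        linarith
      · rw [← Real.log_lt_iff_lt_exp hr0, ← div_lt_iff₀ hY]
        linarith
    intro n hn
    simp only [Set.mem_insert_iff, Set.mem_singleton_iff] at hn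
    rcases hn with rfl | rfl | rfl
    · exact key 0
    · exact key 1
    · exact key 2

theorem ex_finite (M Y Z : ℝ) : {p | Ex M Y Z p}.Finite := by
  refine Set.Finite.subset (Finset.finite_toSet
    ((range (⌊Real.exp Z⌋₊ + 1)) ×ˢ (range (⌊Real.exp Z⌋₊ + 1)))) ?_
  rintro ⟨a, b⟩ ⟨h1, h2, h3, h4, h5, h6⟩
  simp only at h1 h2 h6
  have h7 : a + b ≤ ⌊Real.exp Z⌋₊ := Nat.le_floor h6
  simp only [Finset.coe_product, Finset.coe_range, Set.mem_prod, Set.mem_Iio]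
  omega

/-- **The atypical exceptions.** -/
theorem atyp {M η : ℝ} (A : ℝ) (hM : 1 / 3 < M) (hM2 : M < 3 / 7) (hη : 0 < η) :
    ∃ W : ℝ, 0 ≤ W ∧ W < √(24 * (3 * M - 1)) ∧ ∃ Y₀ : ℝ, 1 < Y₀ ∧ ∀ Y : ℝ, Y₀ ≤ Y →
      (({p | Ex M Y (A * Y) p ∧ ¬ Typ M η Y p} : Set (ℕ × ℕ)).ncard : ℝ) ≤
        2 * Real.exp ((1 - M) * Y + W * √(Y / Real.log Y)) := by
  classical
  obtain ⟨w, hw0, hw1, hw2⟩ := qr_w hM (by linarith : M < 1) hη
  have hW : √(24 * (3 * M - 1)) = √8 * √(3 * (3 * M - 1)) := by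
    rw [← Real.sqrt_mul (by norm_num)]
    congr 1
    ring
  obtain ⟨ε, hε⟩ : ∃ ε : ℝ, ε = √8 * (√(3 * (3 * M - 1)) - w) / 2 := ⟨_, rfl⟩
  have hε0 : 0 < ε := by
    rw [hε]
    have := mul_pos s80 (sub_pos.2 hw1)
    linarith
  obtain ⟨Y₁, hY₁, hup⟩ := four_up (qr_closed M η) (B := 3 / 7) (L := 1 - M) (by norm_num)
    (by linarith) hw0
    (fun μ g hg _ _ _ _ => (qr_max (by linarith) (by linarith) hg.1 hg.2.1).1) hw2 hε0
  obtain ⟨C, hC, hlarge⟩ := Pool.Agent.Run7.h151.FR.large7 A ((3 / 7 - M) / 2) (by linarith)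
    (by linarith)
  refine ⟨√8 * w + ε, by positivity, by rw [hW, hε]; linarith, max (max Y₁ (Real.log C / ((3 / 7 - M) / 2))) 2,
    lt_max_of_lt_right (by norm_num), fun Y hY => ?_⟩
  have hYY₁ : Y₁ ≤ Y := (le_max_left _ _).trans ((le_max_left _ _).trans hY)
  have hYC : Real.log C / ((3 / 7 - M) / 2) ≤ Y :=
    (le_max_right _ _).trans ((le_max_left _ _).trans hY)
  have hY2 : 2 ≤ Y := (le_max_right _ _).trans hY
  have hY0 : 0 < Y := by linarith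
  rw [div_le_iff₀ (by linarith)] at hYC
  have h1 := hup Y hYY₁
  obtain ⟨V, hV⟩ : ∃ V : ℝ, V = √(Y / Real.log Y) := ⟨_, rfl⟩
  have hV0 : 0 ≤ V := by rw [hV]; exact Real.sqrt_nonneg _
  rw [← hV] at h1 ⊢
  have hfin : {p | Ex M Y (A * Y) p ∧ ¬ Typ M η Y p}.Finite :=
    (ex_finite M Y (A * Y)).subset fun p hp => hp.1
  obtain ⟨F, hF⟩ : ∃ F : Finset (ℕ × ℕ), F = hfin.toFinset := ⟨_, rfl⟩
  have hFm : ∀ p, p ∈ F ↔ Ex M Y (A * Y) p ∧ ¬ Typ M η Y p := by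
    intro p
    rw [hF, Set.Finite.mem_toFinset]
    rfl
  rw [Set.ncard_eq_toFinset_card _ hfin, ← hF]
  obtain ⟨F1, hF1⟩ : ∃ F1 : Finset (ℕ × ℕ), F1 = F.filter
    (fun p => ((p.1 + p.2 : ℕ) : ℝ) ≤ Real.exp (3 / 7 * Y)) := ⟨_, rfl⟩
  obtain ⟨F2, hF2⟩ : ∃ F2 : Finset (ℕ × ℕ), F2 = F.filter
    (fun p => ¬ ((p.1 + p.2 : ℕ) : ℝ) ≤ Real.exp (3 / 7 * Y)) := ⟨_, rfl⟩
  have hc : (F.card : ℝ) = F1.card + F2.card := by
    rw [hF1, hF2]
    exact_mod_cast (card_filter_add_card_filter_not _).symm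
  have b1 : (F1.card : ℝ) ≤ Real.exp ((1 - M) * Y + (√8 * w + ε) * V) := by
    refine le_trans ?_ h1
    rw [← Finset.card_image_of_injective F1 tr_inj, ← Set.ncard_coe_finset]
    have hsub : ((F1.image tr : Finset (ℕ × ℕ × ℕ)) : Set (ℕ × ℕ × ℕ)) ⊆
        T4 (QR M η) (3 / 7) Y := by
      intro t ht
      rw [mem_coe, mem_image] at ht
      obtain ⟨p, hp, rfl⟩ := ht
      rw [hF1, mem_filter, hFm] at hp
      obtain ⟨⟨⟨g1, g2, g3, g4, g5, -⟩, g6⟩, g7⟩ := hp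
      have hT : IsT (tr p) := ⟨g1, lt_of_lt_of_le g1 g2, g3, rfl⟩
      refine ⟨hT, (c_le hT).1 g7, ?_, ?_, not_typ hY0 hT g6⟩
      · have e1 := log_rd3 hT
        have hr0 : (0 : ℝ) < rd (p.1 * p.2 * (p.1 + p.2)) := by exact_mod_cast rd_pos _
        have e2 : Real.log (rd (p.1 * p.2 * (p.1 + p.2))) ≤ Y :=
          (Real.log_le_iff_le_exp hr0).2 g4
        have e3 : Real.log (rd ((tr p).1 * (tr p).2.1 * (tr p).2.2)) ≤ Y := e2
        rw [e1] at e3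
        show (3 - ∑ l, gn (tr p) l) * (Real.log (tr p).2.2 / Y) ≤ 1
        rw [← mul_div_assoc, div_le_one hY0]
        exact e3
      · have e1 := log_rd3 hT
        have hr0 : (0 : ℝ) < rd (p.1 * p.2 * (p.1 + p.2)) := by exact_mod_cast rd_pos _
        have e2 := Real.log_le_log (Real.rpow_pos_of_pos hr0 M) g5
        rw [Real.log_rpow hr0] at e2
        have e3 : M * Real.log (rd ((tr p).1 * (tr p).2.1 * (tr p).2.2)) ≤
            Real.log (tr p).2.2 := e2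
        rw [e1] at e3
        show M * ((3 - ∑ l, gn (tr p) l) * (Real.log (tr p).2.2 / Y)) ≤
          Real.log (tr p).2.2 / Y
        rw [← mul_div_assoc, ← mul_div_assoc]
        exact div_le_div_of_nonneg_right e3 hY0.le
    exact_mod_cast Set.ncard_le_ncard hsub (t4_finite _ _ _)
  have b2 : (F2.card : ℝ) ≤ Real.exp ((1 - M) * Y + (√8 * w + ε) * V) := by
    have h2 := hlarge (Real.exp Y) (Real.one_le_exp hY0.le) F2 (by
      intro p hp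
      rw [hF2, mem_filter, hFm] at hp
      obtain ⟨⟨⟨g1, g2, g3, g4, g5, g5'⟩, g6⟩, g7⟩ := hp
      push Not at g7
      refine ⟨g1, lt_of_lt_of_le g1 g2, g3, g4, ?_, ?_⟩
      · rw [← Real.exp_mul, mul_comm]
        exact g7.le
      · rw [← Real.exp_mul, mul_comm]
        exact g5')
    refine h2.trans ?_
    rw [← Real.exp_mul, ← Real.exp_log hC, ← Real.exp_add]
    refine Real.exp_le_exp.2 ?_
    have e1 : (1 - M) * Y = Y * (4 / 7 + (3 / 7 - M) / 2) + Y * ((3 / 7 - M) / 2) := by ring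
    have e2 : 0 ≤ (√8 * w + ε) * V := by positivity
    linarith
  rw [hc]
  linarith

end Run7.h585.LD
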