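import Pool.Agent.Run7.h585.LD.Unif
import Pool.Agent.N348.QP_FINT
import Pool.Agent.N906.QP.All

/-!
# The radicals of the members of an abc triple: bounds for orthants

Written by helper585.
-/

set_option autoImplicit false

namespace Run7.h585.LD

open NumberField IsDedekindDomain Finset Filter Topology Pool.Agent.H691R3 Pool.Agent.W223.AK
open Pool.Agent.N906.KG Pool.Agent.H813R3.Abc
open Pool.Agent.N348.QP (a3 al_a3 gd_a3 mm mm_ne of_a3 hr_eq rl_eq div_inj)

/-- the product of the primes dividing `n` -/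
def rd (n : ℕ) : ℕ := ∏ p ∈ n.primeFactors, p

/-- abc triples -/
def IsT (t : ℕ × ℕ × ℕ) : Prop :=
  0 < t.1 ∧ 0 < t.2.1 ∧ Nat.Coprime t.1 t.2.1 ∧ t.1 + t.2.1 = t.2.2

/-- the numbers `κ` with `rad a = c^(1-κ 0)`, `rad b = c^(1-κ 1)`, `rad c = c^(1-κ 2)` -/
noncomputable def gn (t : ℕ × ℕ × ℕ) : Fin 3 → ℝ :=
  ![1 - Real.log (rd t.1) / Real.log t.2.2, 1 - Real.log (rd t.2.1) / Real.log t.2.2,
    1 - Real.log (rd t.2.2) / Real.log t.2.2]

theorem rd_pos (n : ℕ) : 0 < rd n :=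
  Finset.prod_pos fun _ hp => (Nat.prime_of_mem_primeFactors hp).pos

theorem rd_le {n : ℕ} (hn : n ≠ 0) : rd n ≤ n :=
  Nat.le_of_dvd (Nat.pos_of_ne_zero hn) (Nat.prod_primeFactors_dvd n)

variable {t : ℕ × ℕ × ℕ}

theorem gn_eq (ht : IsT t) (l : Fin 3) :
    gn t l = 1 - Real.log (rd (mm t.1 t.2.1 l)) / Real.log t.2.2 := by
  obtain ⟨-, -, -, h⟩ := ht
  fin_cases l
  · rfl
  · rfl
  · show 1 - Real.log (rd t.2.2) / Real.log t.2.2 = 1 - Real.log (rd (t.1 + t.2.1)) / Real.log t.2.2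
    rw [h]

theorem two_le_c (ht : IsT t) : 2 ≤ t.2.2 := by
  obtain ⟨h1, h2, -, h⟩ := ht
  omega

theorem log_c_pos (ht : IsT t) : 0 < Real.log (t.2.2 : ℝ) := by
  apply Real.log_pos
  have : (2 : ℝ) ≤ t.2.2 := by exact_mod_cast two_le_c ht
  linarith

theorem mm_le (ht : IsT t) (l : Fin 3) : mm t.1 t.2.1 l ≤ t.2.2 := by
  obtain ⟨-, -, -, h⟩ := ht
  fin_cases l
  · show t.1 ≤ t.2.2
    omega
  · show t.2.1 ≤ t.2.2
    omega
  · show t.1 + t.2.1 ≤ t.2.2
    omega

theorem log_rd (ht : IsT t) (l : Fin 3) :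
    Real.log (rd (mm t.1 t.2.1 l)) = (1 - gn t l) * Real.log t.2.2 := by
  have h := log_c_pos ht
  rw [gn_eq ht, sub_sub_cancel, div_mul_cancel₀ _ h.ne']

theorem gn0 (ht : IsT t) (l : Fin 3) : 0 ≤ gn t l := by
  have h := log_c_pos ht
  rw [gn_eq ht, sub_nonneg, div_le_one h]
  apply Real.log_le_log (by exact_mod_cast rd_pos _)
  exact_mod_cast (rd_le (mm_ne ht.1 ht.2.1 l)).trans (mm_le ht l)

theorem gn1 (ht : IsT t) (l : Fin 3) : gn t l ≤ 1 := by
  have h := log_c_pos ht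
  rw [gn_eq ht, sub_le_self_iff]
  apply div_nonneg _ h.le
  apply Real.log_nonneg
  exact_mod_cast rd_pos _

/-- the triples with `c ≤ X` and gains in `E` -/
def TS (E : Set (Fin 3 → ℝ)) (X : ℝ) : Set (ℕ × ℕ × ℕ) :=
  {t | IsT t ∧ (t.2.2 : ℝ) ≤ X ∧ gn t ∈ E}

theorem ts_finite (E : Set (Fin 3 → ℝ)) (X : ℝ) : (TS E X).Finite := by
  refine Set.Finite.subset (Finset.finite_toSet
    ((range (⌊X⌋₊ + 1)) ×ˢ ((range (⌊X⌋₊ + 1)) ×ˢ (range (⌊X⌋₊ + 1))))) ?_
  rintro ⟨a, b, c⟩ ⟨⟨h1, h2, h3, h4⟩, h5, -⟩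
  simp only at h1 h2 h3 h4 h5
  have h6 : c ≤ ⌊X⌋₊ := Nat.le_floor h5
  simp only [Finset.coe_product, Finset.coe_range, Set.mem_prod, Set.mem_Iio]
  omega

/-- the upper bound for an orthant, uniformly -/
theorem up_orth {δ ε : ℝ} (hδ : 0 < δ) (hε : 0 < ε) :
    ∃ X₀ : ℝ, 1 < X₀ ∧ ∀ X : ℝ, X₀ ≤ X → ∀ κ : Fin 3 → ℝ, (∀ l, 0 ≤ κ l) →
      ∑ l, κ l ≤ 1 - δ → ∀ F : Finset (ℕ × ℕ × ℕ),
      (∀ t ∈ F, IsT t ∧ (t.2.2 : ℝ) ≤ Real.exp X ∧ ∀ l, κ l ≤ gn t l) →
      (F.card : ℝ) ≤ Real.exp ((2 - ∑ l, κ l) * X + ∑ l, √(8 * κ l * X / Real.log X) +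
        ε * √(X / Real.log X)) := by
  classical
  obtain ⟨X₀, hX₀, h⟩ := upju ℚ 3 1 (by norm_num) le_rfl (basq_all ℚ) (cellq_all ℚ) (rank_all ℚ)
    (Pool.Agent.N654.QP.bigq3 ℚ) a3 ∅ δ ε (Real.log 2) al_a3 gd_a3 hδ hε
    (Real.log_nonneg (by norm_num))
  refine ⟨X₀, hX₀, fun X hX κ hκ0 hκs F hF => ?_⟩
  have hκ1 : ∀ l, κ l ≤ 1 := by
    intro l
    have := Finset.single_le_sum (f := κ) (fun l _ => hκ0 l) (mem_univ l)
    linarith
  set φ : ℕ × ℕ × ℕ → ℚ := fun t => (t.1 : ℚ) / t.2.1 with hφ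
  have hinj : Set.InjOn φ (F : Set (ℕ × ℕ × ℕ)) := by
    rintro ⟨a, b, c⟩ ht ⟨a', b', c'⟩ ht' hh
    obtain ⟨⟨g1, g2, g3, g4⟩, -⟩ := hF _ ht
    obtain ⟨⟨g1', g2', g3', g4'⟩, -⟩ := hF _ ht'
    simp only at g1 g2 g3 g4 g1' g2' g3' g4'
    obtain ⟨i1, i2⟩ := div_inj g2 g2' g3 g3' hh
    subst i1 i2 g4 g4'
    rfl
  have h2 := h X hX κ hκ0 hκs (F.image φ) ?_
  · rwa [Finset.card_image_of_injOn hinj] at h2
  · intro x hx
    obtain ⟨t, ht, rfl⟩ := Finset.mem_image.1 hx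
    obtain ⟨hT, g5, g6⟩ := hF t ht
    have hlog := log_rd hT
    obtain ⟨a, b, c⟩ := t
    have hT' := hT
    obtain ⟨g1, g2, g3, g4⟩ := hT'
    simp only at g1 g2 g3 g4 g5 hlog
    have hOf := of_a3 g1 g2
    obtain ⟨P, hP⟩ := Pool.Agent.N954.KG.isP_exists al_a3 ∅ hOf
    have hhr := hr_eq g1 g2 g3
    have haR : (0 : ℝ) < a := by exact_mod_cast g1
    have hbR : (0 : ℝ) < b := by exact_mod_cast g2
    have hmax : 0 < max (a : ℝ) b := lt_max_of_lt_left haR
    have hc : (c : ℝ) = a + b := by rw [← g4]; push_cast; ring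
    have hcR : (0 : ℝ) < c := by rw [hc]; linarith
    have hmc : max (a : ℝ) b ≤ c := by rw [hc]; exact max_le (by linarith) (by linarith)
    have hcm : (c : ℝ) ≤ 2 * max (a : ℝ) b := by
      rw [hc]
      linarith [le_max_left (a : ℝ) b, le_max_right (a : ℝ) b]
    have hlc : Real.log c ≤ Real.log 2 + Real.log (max (a : ℝ) b) := by
      rw [← Real.log_mul (by norm_num) hmax.ne']
      exact Real.log_le_log hcR hcm
    have hlc0 : 0 < Real.log (c : ℝ) := log_c_pos hT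
    show Of a3 ((a : ℚ) / b) ∧ hr (aff ((a : ℚ) / b)) ≤ X ∧ ∃ P, IsP ∅ a3 ((a : ℚ) / b) P ∧
      ∀ l, rl (P l) ≤ (1 - κ l) * hr (aff ((a : ℚ) / b)) + Real.log 2
    refine ⟨hOf, ?_, P, hP, fun l => ?_⟩
    · rw [hhr, Real.log_le_iff_le_exp hmax]
      exact hmc.trans g5
    · rw [rl_eq g1 g2 g3 hP l, hhr]
      have h3 := hlog l
      unfold rd at h3
      rw [h3]
      have h4 := g6 l
      have h5 : (1 - gn (a, b, c) l) * Real.log c ≤ (1 - κ l) * Real.log c :=
        mul_le_mul_of_nonneg_right (by linarith) hlc0.le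
      have h6 : (1 - κ l) * Real.log c ≤ (1 - κ l) * (Real.log 2 + Real.log (max (a : ℝ) b)) :=
        mul_le_mul_of_nonneg_left hlc (by linarith [hκ1 l])
      have h7 : κ l * Real.log 2 ≥ 0 := mul_nonneg (hκ0 l) (Real.log_nonneg (by norm_num))
      linarith

/-- the lower bound for an orthant -/
theorem lo_orth {κ : Fin 3 → ℝ} (hκ0 : ∀ l, 0 ≤ κ l) (hκs : 0 < ∑ l, κ l) (hκs1 : ∑ l, κ l < 1)
    {ε : ℝ} (hε : 0 < ε) :
    ∃ X₀ : ℝ, 1 < X₀ ∧ ∀ X : ℝ, X₀ ≤ X →
      Real.exp ((2 - ∑ l, κ l) * X + ∑ l, √(8 * κ l * X / Real.log X) -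
        ε * √(X / Real.log X)) ≤ ((TS {g | ∀ l, κ l ≤ g l} (Real.exp X)).ncard : ℝ) := by
  classical
  have hκ1 : ∀ l, κ l < 1 := by
    intro l
    have := Finset.single_le_sum (f := κ) (fun l _ => hκ0 l) (mem_univ l)
    linarith
  have hsum : ∑ l, (1 - κ l) = 3 - ∑ l, κ l := by
    rw [Finset.sum_sub_distrib, Finset.sum_const, Finset.card_univ, Fintype.card_fin]
    norm_num
  obtain ⟨ε', hε'⟩ : ∃ ε' : ℝ, ε' = min (1 / 2) (ε / 36) := ⟨_, rfl⟩
  have hε'0 : 0 < ε' := by rw [hε']; exact lt_min (by norm_num) (by positivity)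
  have hε'1 : ε' < 1 := by rw [hε']; exact (min_le_left _ _).trans_lt (by norm_num)
  have hε'2 : ε' ≤ ε / 36 := by rw [hε']; exact min_le_right _ _
  obtain ⟨X₁, hX₁, h⟩ := Pool.Agent.N348.QP.lo (loj_all ℚ) (A := fun l => 1 - κ l)
    (fun l => by linarith [hκ1 l]) (fun l => by linarith [hκ0 l]) (by rw [hsum]; linarith)
    (by rw [hsum]; linarith) hε'0 hε'1
  have ev := (Real.tendsto_log_atTop.eventually_ge_atTop 1).and
    ((tendsto_id.eventually_ge_atTop (X₁ + 1) : ∀ᶠ X : ℝ in atTop, X₁ + 1 ≤ id X).and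
      ((Pool.Agent.N906.RS.small 11).eventually_le_const (show (0 : ℝ) < ε / 2 by positivity)))
  obtain ⟨X₀, hX₀⟩ := eventually_atTop.1 ev
  refine ⟨max X₀ 3, lt_max_of_lt_right (by norm_num), fun X hX => ?_⟩
  obtain ⟨e1, e2, e3⟩ := hX₀ X ((le_max_left _ _).trans hX)
  simp only [id] at e2
  have hX3 : 3 ≤ X := (le_max_right _ _).trans hX
  have hX2 : 2 ≤ X := by linarith
  have hlog2 : Real.log 2 ≤ 1 := by
    have := Real.log_le_sub_one_of_pos (show (0 : ℝ) < 2 by norm_num)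
    linarith
  have hlog20 : 0 ≤ Real.log 2 := Real.log_nonneg (by norm_num)
  have h3 := h (X - Real.log 2) (by linarith)
  rw [sub_add_cancel] at h3
  refine le_trans ?_ (h3.trans ?_)
  · apply Real.exp_le_exp.2
    obtain ⟨V, hV⟩ : ∃ V : ℝ, V = √(X / Real.log X) := ⟨_, rfl⟩
    have hlX : 0 < Real.log X := by linarith
    have hV0 : 0 < V := by rw [hV]; exact Real.sqrt_pos.2 (by positivity)
    rw [← hV] at e3 ⊢
    rw [div_le_iff₀ hV0] at e3
    obtain ⟨Y, hY⟩ : ∃ Y : ℝ, Y = X - Real.log 2 := ⟨_, rfl⟩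
    have hY1 : X - 1 ≤ Y := by rw [hY]; linarith
    have hYX : Y ≤ X := by rw [hY]; linarith
    have hY0 : 1 < Y := by linarith
    have hlY : 0 < Real.log Y := Real.log_pos hY0
    have hlYX : Real.log Y ≤ Real.log X := Real.log_le_log (by linarith) hYX
    rw [← hY]
    have hVY : V ≤ √(Y / Real.log Y) + 1 := by
      have i1 : X / Real.log X ≤ Y / Real.log Y + 1 := by
        have i2 : Y / Real.log X ≤ Y / Real.log Y := div_le_div_of_nonneg_left (by linarith) hlY hlYX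
        have i3 : X / Real.log X = Y / Real.log X + (X - Y) / Real.log X := by
          rw [← add_div]; congr 1; ring
        have i4 : (X - Y) / Real.log X ≤ 1 := by
          rw [div_le_one hlX]
          linarith
        linarith
      rw [hV]
      apply Real.sqrt_le_iff.2
      have i5 := Real.sqrt_nonneg (Y / Real.log Y)
      have i6 := Real.sq_sqrt (show 0 ≤ Y / Real.log Y by positivity)
      refine ⟨by positivity, ?_⟩
      nlinarith
    have hterm : ∀ l, √(8 * κ l * X / Real.log X) ≤ √(8 * κ l * Y / Real.log Y) + 3 := by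
      intro l
      have j1 : ∀ Z : ℝ, √(8 * κ l * Z / Real.log Z) = √(8 * κ l) * √(Z / Real.log Z) := by
        intro Z
        have := hκ0 l
        rw [mul_div_assoc, Real.sqrt_mul (by positivity)]
      rw [j1, j1, ← hV]
      have j2 : √(8 * κ l) ≤ 3 := by
        rw [Real.sqrt_le_left (by norm_num)]
        have := hκ1 l
        linarith
      have j3 := Real.sqrt_nonneg (8 * κ l)
      calc √(8 * κ l) * V ≤ √(8 * κ l) * (√(Y / Real.log Y) + 1) :=
            mul_le_mul_of_nonneg_left hVY j3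
        _ ≤ _ := by linarith
    have hYs : ∀ l, √(8 * κ l * Y / Real.log Y) ≤ 6 * V := by
      intro l
      have j1 : √(8 * κ l * Y / Real.log Y) = √(8 * κ l) * √(Y / Real.log Y) := by
        have := hκ0 l
        rw [mul_div_assoc, Real.sqrt_mul (by positivity)]
      have j2 : √(8 * κ l) ≤ 3 := by
        rw [Real.sqrt_le_left (by norm_num)]
        have := hκ1 l
        linarith
      have j4 : √(Y / Real.log Y) ≤ 2 * V := by
        have k1 : Y / Real.log Y ≤ 4 * (X / Real.log X) := by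
          have k2 : Real.log X ≤ 2 * Real.log Y := by
            have k3 : X ≤ Y ^ 2 := by nlinarith
            have k4 := Real.log_le_log (by linarith) k3
            rwa [Real.log_pow, Nat.cast_ofNat] at k4
          rw [div_le_iff₀ hlY]
          have k5 : 4 * (X / Real.log X) * Real.log Y = 4 * X * (Real.log Y / Real.log X) := by
            field_simp
          rw [k5]
          have k6 : 1 / 2 ≤ Real.log Y / Real.log X := by
            rw [le_div_iff₀ hlX]
            linarith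
          nlinarith
        rw [hV, show (2 : ℝ) * √(X / Real.log X) = √(4 * (X / Real.log X)) by
          rw [Real.sqrt_mul (by norm_num), show √(4 : ℝ) = 2 by
            rw [show (4 : ℝ) = 2 ^ 2 by norm_num, Real.sqrt_sq (by norm_num)]]]
        exact Real.sqrt_le_sqrt k1
      rw [j1]
      calc √(8 * κ l) * √(Y / Real.log Y) ≤ 3 * (2 * V) :=
            mul_le_mul j2 j4 (Real.sqrt_nonneg _) (by norm_num)
        _ = 6 * V := by ring
    have hS1 : ∑ l, √(8 * κ l * X / Real.log X) ≤ ∑ l, √(8 * κ l * Y / Real.log Y) + 9 := by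
      have := Finset.sum_le_sum fun l (_ : l ∈ (univ : Finset (Fin 3))) => hterm l
      rw [Finset.sum_add_distrib, Finset.sum_const, Finset.card_univ, Fintype.card_fin] at this
      norm_num at this
      exact this
    have hS2 : ∑ l, √(8 * κ l * Y / Real.log Y) ≤ 18 * V := by
      have := Finset.sum_le_sum fun l (_ : l ∈ (univ : Finset (Fin 3))) => hYs l
      rw [Finset.sum_const, Finset.card_univ, Fintype.card_fin, nsmul_eq_mul] at this
      push_cast at this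
      linarith
    have hS3 : ε' * ∑ l, √(8 * κ l * Y / Real.log Y) ≤ ε / 2 * V := by
      calc ε' * ∑ l, √(8 * κ l * Y / Real.log Y) ≤ (ε / 36) * (18 * V) :=
            mul_le_mul hε'2 hS2 (Finset.sum_nonneg fun _ _ => Real.sqrt_nonneg _) (by positivity)
        _ = _ := by ring
    have hA : ∑ l, (1 - κ l) - 1 = 2 - ∑ l, κ l := by rw [hsum]; ring
    have hB : ∀ l, 8 * (1 - (1 - κ l)) * Y = 8 * κ l * Y := by intro l; ring
    rw [hA]
    simp only [hB]
    have hlin : (2 - ∑ l, κ l) * X ≤ (2 - ∑ l, κ l) * Y + 2 := by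
      have : (2 - ∑ l, κ l) * (X - Y) ≤ 2 * 1 := by
        apply mul_le_mul (by linarith) (by linarith) (by linarith) (by norm_num)
      linarith
    linarith
  · have hsub : Tri (fun l => 1 - κ l) (Real.exp X) ⊆ TS {g | ∀ l, κ l ≤ g l} (Real.exp X) := by
      rintro ⟨a, b, c⟩ ⟨g1, g2, g3, g4, g5, g6, g7, g8⟩
      simp only at g1 g2 g3 g4 g5 g6 g7 g8
      have hT : IsT (a, b, c) := ⟨g1, g2, g3, g4⟩
      refine ⟨hT, g5, fun l => ?_⟩
      have hc := log_c_pos hT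
      simp only at hc
      have hcR : (0 : ℝ) < c := by
        have : 2 ≤ c := two_le_c hT
        exact_mod_cast (by omega : 0 < c)
      have h4 : ((rd (mm a b l) : ℕ) : ℝ) ≤ (c : ℝ) ^ (1 - κ l) := by
        fin_cases l
        · exact g6
        · exact g7
        · show ((rd (a + b) : ℕ) : ℝ) ≤ _
          rw [g4]
          exact g8
      have h5 : Real.log (rd (mm a b l)) ≤ (1 - κ l) * Real.log c := by
        rw [← Real.log_rpow hcR]
        exact Real.log_le_log (by exact_mod_cast rd_pos _) h4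
      rw [gn_eq hT]
      simp only
      have h6 : Real.log (rd (mm a b l)) / Real.log c ≤ 1 - κ l := by
        rwa [div_le_iff₀ hc]
      linarith
    exact_mod_cast Set.ncard_le_ncard hsub (ts_finite _ _)

end Run7.h585.LD
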