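import Pool.Agent.Run7.h585.LD.Ldp

/-!
# Up-sets: the limit and the typical structure

Written by helper585.
-/

set_option autoImplicit false

namespace Run7.h585.LD

open Finset Filter Topology

theorem s80 : 0 < √(8 : ℝ) := Real.sqrt_pos.2 (by norm_num)

/-- the lower bound for a set containing a box -/
theorem lo_box {E : Set (Fin 3 → ℝ)} {κ : Fin 3 → ℝ} (hκ0 : ∀ l, 0 ≤ κ l) (hκs : 0 < ∑ l, κ l)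
    (hκs1 : ∑ l, κ l < 1) {η : ℝ} (hη : 0 < η)
    (hE : ∀ g : Fin 3 → ℝ, (∀ l, κ l ≤ g l ∧ g l ≤ κ l + η) → g ∈ E) {ε : ℝ} (hε : 0 < ε) :
    ∃ X₀ : ℝ, 1 < X₀ ∧ ∀ X : ℝ, X₀ ≤ X →
      Real.exp ((2 - ∑ l, κ l) * X + (√8 * (∑ l, √(κ l)) - ε) * √(X / Real.log X)) ≤
        ((TS E (Real.exp X)).ncard : ℝ) := by
  obtain ⟨X₀, hX₀, h⟩ := ldp_lo hκ0 hκs hκs1 hη hε
  refine ⟨X₀, hX₀, fun X hX => (h X hX).trans ?_⟩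
  have hsub : TS {g | ∀ l, κ l ≤ g l ∧ g l ≤ κ l + η} (Real.exp X) ⊆ TS E (Real.exp X) := by
    rintro t ⟨g1, g2, g3⟩
    exact ⟨g1, g2, hE _ g3⟩
  exact_mod_cast Set.ncard_le_ncard hsub (ts_finite _ _)

/-- the limit for a closed set which contains a box at a maximiser -/
theorem ups {E : Set (Fin 3 → ℝ)} (hE : IsClosed E) {κ : Fin 3 → ℝ} (hκ0 : ∀ l, 0 ≤ κ l)
    (hκs : 0 < ∑ l, κ l) (hκs1 : ∑ l, κ l < 1) {η : ℝ} (hη : 0 < η)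
    (hb : ∀ g : Fin 3 → ℝ, (∀ l, κ l ≤ g l ∧ g l ≤ κ l + η) → g ∈ E)
    (h1 : ∀ g ∈ E, (∀ l, 0 ≤ g l) → (∀ l, g l ≤ 1) → ∑ l, κ l ≤ ∑ l, g l)
    (h2 : ∀ g ∈ E, (∀ l, 0 ≤ g l) → (∀ l, g l ≤ 1) → ∑ l, g l = ∑ l, κ l →
      ∑ l, √(g l) ≤ ∑ l, √(κ l)) :
    Tendsto (fun X : ℝ => (Real.log ((TS E (Real.exp X)).ncard : ℝ) - (2 - ∑ l, κ l) * X) /
      √(X / Real.log X)) atTop (𝓝 (√8 * ∑ l, √(κ l))) := by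
  rw [Metric.tendsto_atTop']
  intro ε hε
  obtain ⟨X₁, -, hu⟩ := ldp_up hE hκs.le hκs1 (w := ∑ l, √(κ l))
    (Finset.sum_nonneg fun _ _ => Real.sqrt_nonneg _) h1 h2 (half_pos hε)
  obtain ⟨X₂, -, hl⟩ := lo_box hκ0 hκs hκs1 hη hb (half_pos hε)
  refine ⟨max (max X₁ X₂) 2, fun X hX => ?_⟩
  have hX1 : X₁ ≤ X := (le_max_left _ _).trans ((le_max_left _ _).trans hX.le)
  have hX2 : X₂ ≤ X := (le_max_right _ _).trans ((le_max_left _ _).trans hX.le)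
  have hX3 : 2 ≤ X := (le_max_right _ _).trans hX.le
  have g1 := hu X hX1
  have g2 := hl X hX2
  have hV0 : 0 < √(X / Real.log X) :=
    Real.sqrt_pos.2 (div_pos (by linarith) (Real.log_pos (by linarith)))
  obtain ⟨V, hV⟩ : ∃ V : ℝ, V = √(X / Real.log X) := ⟨_, rfl⟩
  obtain ⟨N, hN⟩ : ∃ N : ℝ, N = ((TS E (Real.exp X)).ncard : ℝ) := ⟨_, rfl⟩
  rw [← hV, ← hN] at g1 g2
  rw [← hV] at hV0
  have hN0 : 0 < N := (Real.exp_pos _).trans_le g2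
  rw [← Real.log_le_iff_le_exp hN0] at g1
  rw [← Real.le_log_iff_exp_le hN0] at g2
  rw [← hV, ← hN, Real.dist_eq, abs_lt]
  obtain ⟨W, hW⟩ : ∃ W : ℝ, W = √8 * ∑ l, √(κ l) := ⟨_, rfl⟩
  rw [← hW] at g1 g2 ⊢
  have e1 : W - ε / 2 ≤ (Real.log N - (2 - ∑ l, κ l) * X) / V := by
    rw [le_div_iff₀ hV0]
    linarith
  have e2 : (Real.log N - (2 - ∑ l, κ l) * X) / V ≤ W + ε / 2 := by
    rw [div_le_iff₀ hV0]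
    linarith
  constructor <;> linarith

theorem sgpos {κ : Fin 3 → ℝ} (hκ0 : ∀ l, 0 ≤ κ l) (hκs : 0 < ∑ l, κ l) : 0 < ∑ l, √(κ l) := by
  have h0 : 0 ≤ ∑ l, √(κ l) := Finset.sum_nonneg fun _ _ => Real.sqrt_nonneg _
  refine lt_of_le_of_ne h0 fun h => ?_
  have h1 := (Finset.sum_eq_zero_iff_of_nonneg (fun l _ => Real.sqrt_nonneg (κ l))).1 h.symm
  have h2 : ∑ l, κ l = 0 := by
    refine Finset.sum_eq_zero fun l hl => ?_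
    exact (Real.sqrt_eq_zero (hκ0 l)).1 (h1 l hl)
  linarith

/-- the typical structure -/
theorem conc {E : Set (Fin 3 → ℝ)} (hE : IsClosed E) {κ : Fin 3 → ℝ} (hκ0 : ∀ l, 0 ≤ κ l)
    (hκs : 0 < ∑ l, κ l) (hκs1 : ∑ l, κ l < 1) {η : ℝ} (hη : 0 < η)
    (hb : ∀ g : Fin 3 → ℝ, (∀ l, κ l ≤ g l ∧ g l ≤ κ l + η) → g ∈ E)
    (h1 : ∀ g ∈ E, (∀ l, 0 ≤ g l) → (∀ l, g l ≤ 1) → ∑ l, κ l ≤ ∑ l, g l)
    (h2 : ∀ g ∈ E, (∀ l, 0 ≤ g l) → (∀ l, g l ≤ 1) → ∑ l, g l = ∑ l, κ l →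
      ∑ l, √(g l) ≤ ∑ l, √(κ l)) {U : Set (Fin 3 → ℝ)} (hU : IsOpen U)
    (h3 : ∀ g ∈ E, (∀ l, 0 ≤ g l) → (∀ l, g l ≤ 1) → ∑ l, g l = ∑ l, κ l →
      ∑ l, √(g l) = ∑ l, √(κ l) → g ∈ U) :
    ∃ δ : ℝ, 0 < δ ∧ ∃ X₀ : ℝ, 1 < X₀ ∧ ∀ X : ℝ, X₀ ≤ X →
      ((TS (E \ U) (Real.exp X)).ncard : ℝ) ≤
        Real.exp (-(δ * √(X / Real.log X))) * ((TS E (Real.exp X)).ncard : ℝ) := by
  obtain ⟨Q, hQ⟩ : ∃ Q : Set (Fin 3 → ℝ), Q = (Set.univ.pi fun _ => Set.Icc (0 : ℝ) 1) ∩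
    ((E \ U) ∩ {g | ∑ l, g l = ∑ l, κ l}) := ⟨_, rfl⟩
  have hmem : ∀ g, g ∈ Q ↔ ((∀ l, 0 ≤ g l) ∧ (∀ l, g l ≤ 1)) ∧ (g ∈ E ∧ g ∉ U) ∧
      ∑ l, g l = ∑ l, κ l := by
    intro g
    rw [hQ]
    constructor
    · rintro ⟨h1, h2, h3⟩
      exact ⟨⟨fun l => (h1 l trivial).1, fun l => (h1 l trivial).2⟩, h2, h3⟩
    · rintro ⟨⟨h1, h2⟩, h3, h4⟩
      exact ⟨fun l _ => ⟨h1 l, h2 l⟩, h3, h4⟩
  have hcl : IsClosed {g : Fin 3 → ℝ | ∑ l, g l = ∑ l, κ l} :=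
    isClosed_eq (by fun_prop) continuous_const
  have hEU : IsClosed (E \ U) := hE.sdiff hU
  have hc : IsCompact Q := by
    rw [hQ]
    exact (isCompact_univ_pi fun _ => isCompact_Icc).inter_right (hEU.inter hcl)
  have hpos := sgpos hκ0 hκs
  obtain ⟨w, hw0, hw1, hw2⟩ : ∃ w : ℝ, 0 ≤ w ∧ w < ∑ l, √(κ l) ∧
      ∀ g ∈ E \ U, (∀ l, 0 ≤ g l) → (∀ l, g l ≤ 1) → ∑ l, g l = ∑ l, κ l → ∑ l, √(g l) ≤ w := by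
    rcases Q.eq_empty_or_nonempty with he | hne
    · refine ⟨0, le_rfl, hpos, fun g hg g0 g1 g2 => ?_⟩
      have : g ∈ Q := (hmem g).2 ⟨⟨g0, g1⟩, hg, g2⟩
      rw [he] at this
      exact this.elim
    · obtain ⟨g₀, hg₀, hmax⟩ := hc.exists_isMaxOn hne
        (f := fun g : Fin 3 → ℝ => ∑ l, √(g l)) (by fun_prop)
      obtain ⟨⟨a0, a1⟩, ⟨a2, a3⟩, a4⟩ := (hmem g₀).1 hg₀
      refine ⟨∑ l, √(g₀ l), Finset.sum_nonneg fun _ _ => Real.sqrt_nonneg _, ?_,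
        fun g hg g0 g1 g2 => ?_⟩
      · refine lt_of_le_of_ne (h2 g₀ a2 a0 a1 a4) fun h => ?_
        exact a3 (h3 g₀ a2 a0 a1 a4 h)
      · exact hmax ((hmem g).2 ⟨⟨g0, g1⟩, hg, g2⟩)
  obtain ⟨ε, hε⟩ : ∃ ε : ℝ, ε = √8 * (∑ l, √(κ l) - w) / 4 := ⟨_, rfl⟩
  have hε0 : 0 < ε := by
    rw [hε]
    have := mul_pos s80 (sub_pos.2 hw1)
    linarith
  obtain ⟨X₁, hX₁, hu⟩ := ldp_up hEU hκs.le hκs1 hw0
    (fun g hg => h1 g hg.1) hw2 hε0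
  obtain ⟨X₂, hX₂, hl⟩ := lo_box hκ0 hκs hκs1 hη hb hε0
  refine ⟨2 * ε, by linarith, max X₁ X₂, lt_max_of_lt_left hX₁, fun X hX => ?_⟩
  have g1 := hu X ((le_max_left _ _).trans hX)
  have g2 := hl X ((le_max_right _ _).trans hX)
  obtain ⟨V, hV⟩ : ∃ V : ℝ, V = √(X / Real.log X) := ⟨_, rfl⟩
  rw [← hV] at g1 g2 ⊢
  have g3 := mul_le_mul_of_nonneg_left g2 (Real.exp_pos (-(2 * ε * V))).le
  refine le_trans ?_ g3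
  rw [← Real.exp_add]
  refine g1.trans (Real.exp_le_exp.2 (le_of_eq ?_))
  have : √8 * ∑ l, √(κ l) = √8 * w + 4 * ε := by rw [hε]; ring
  rw [this]
  ring

end Run7.h585.LD
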