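import Pool.Agent.Run7.h585.LD.Ups

/-!
# Weights

Written by helper585.
-/

set_option autoImplicit false

namespace Run7.h585.LD

open Finset Filter Topology

/-- the triples with `rad(a)^(α 0) rad(b)^(α 1) rad(c)^(α 2) ≤ c^(∑ α - r)` -/
def We (α : Fin 3 → ℝ) (r : ℝ) : Set (Fin 3 → ℝ) := {g | r ≤ ∑ l, α l * g l}

/-- the maximiser -/
noncomputable def ks (α : Fin 3 → ℝ) (r : ℝ) : Fin 3 → ℝ :=
  fun l => if α l = 1 then r / (#{i | α i = 1} : ℕ) else 0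

theorem we_closed (α : Fin 3 → ℝ) (r : ℝ) : IsClosed (We α r) :=
  isClosed_le continuous_const (by fun_prop)

section

variable {α : Fin 3 → ℝ} {r : ℝ}

theorem ks0 (hr : 0 < r) (l : Fin 3) : 0 ≤ ks α r l := by
  unfold ks
  split_ifs
  · positivity
  · exact le_rfl

theorem card_pos' (hM : ∃ l, α l = 1) : (0 : ℝ) < (#{i | α i = 1} : ℕ) := by
  obtain ⟨l, hl⟩ := hM
  have : 0 < #{i | α i = 1} := Finset.card_pos.2 ⟨l, by simp [hl]⟩
  exact_mod_cast this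

theorem sum_ite' (f : Fin 3 → ℝ) (c : ℝ) :
    ∑ l, (if α l = 1 then c * f l else 0) = c * ∑ l ∈ ({i | α i = 1} : Finset (Fin 3)), f l := by
  rw [Finset.mul_sum, Finset.sum_filter]

theorem ks_sum (hM : ∃ l, α l = 1) : ∑ l, ks α r l = r := by
  have h := card_pos' hM
  have h1 := sum_ite' (α := α) (fun _ => (1 : ℝ)) (r / (#{i | α i = 1} : ℕ))
  simp only [mul_one, Finset.sum_const, nsmul_eq_mul] at h1
  unfold ks
  rw [h1, div_mul_cancel₀ _ h.ne']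

theorem ks_sqrt (hM : ∃ l, α l = 1) (hr : 0 < r) :
    ∑ l, √(ks α r l) = √((#{i | α i = 1} : ℕ) * r) := by
  have h := card_pos' hM
  obtain ⟨m, hm⟩ : ∃ m : ℝ, m = (#{i | α i = 1} : ℕ) := ⟨_, rfl⟩
  have h0 : ∀ l, √(ks α r l) = if α l = 1 then √(r / m) * 1 else 0 := by
    intro l
    unfold ks
    rw [← hm]
    split_ifs
    · rw [mul_one]
    · exact Real.sqrt_zero
  simp only [h0]
  have h1 := sum_ite' (α := α) (fun _ => (1 : ℝ)) (√(r / m))
  simp only [Finset.sum_const, nsmul_eq_mul, mul_one] at h1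
  simp only [mul_one]
  rw [← hm] at h h1 ⊢
  rw [h1]
  have h2 : m = √(m * m) := (Real.sqrt_mul_self h.le).symm
  rw [mul_comm, show √(r / m) = √(r / m) from rfl]
  nth_rewrite 1 [h2]
  rw [← Real.sqrt_mul (by positivity)]
  congr 1
  field_simp

/-- points of the minimal face are supported on the weights one -/
theorem supp (hα : ∀ l, α l ≤ 1) {g : Fin 3 → ℝ} (hg : g ∈ We α r) (hg0 : ∀ l, 0 ≤ g l)
    (hs : ∑ l, g l = r) (l : Fin 3) (hl : α l ≠ 1) : g l = 0 := by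
  have h1 : r ≤ ∑ l, α l * g l := hg
  have h2 : ∑ l, (1 - α l) * g l ≤ 0 := by
    have : ∑ l, (1 - α l) * g l = ∑ l, g l - ∑ l, α l * g l := by
      rw [← Finset.sum_sub_distrib]
      exact Finset.sum_congr rfl fun l _ => by ring
    linarith
  have h3 : ∀ l ∈ (univ : Finset (Fin 3)), 0 ≤ (1 - α l) * g l := fun l _ =>
    mul_nonneg (by linarith [hα l]) (hg0 l)
  have h4 := (Finset.sum_eq_zero_iff_of_nonneg h3).1 (le_antisymm h2 (Finset.sum_nonneg h3)) l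
    (mem_univ l)
  rcases mul_eq_zero.1 h4 with h5 | h5
  · exact absurd (by linarith) hl
  · exact h5

/-- the distance to the maximiser -/
theorem dist_sq (hM : ∃ l, α l = 1) (hr : 0 < r) {g : Fin 3 → ℝ} (hg0 : ∀ l, 0 ≤ g l)
    (hs : ∑ l, g l = r) (hsup : ∀ l, α l ≠ 1 → g l = 0) :
    ∑ l, (√(g l) - √(ks α r l)) ^ 2 =
      2 * r - 2 * √(r / (#{i | α i = 1} : ℕ)) * ∑ l, √(g l) := by
  have h1 : ∀ l, (√(g l) - √(ks α r l)) ^ 2 = g l + ks α r l -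
      2 * √(r / (#{i | α i = 1} : ℕ)) * √(g l) := by
    intro l
    have e1 := Real.sq_sqrt (hg0 l)
    have e2 := Real.sq_sqrt (ks0 (α := α) hr l)
    have e3 : √(ks α r l) * √(g l) = √(r / (#{i | α i = 1} : ℕ)) * √(g l) := by
      by_cases hl : α l = 1
      · have : ks α r l = r / (#{i | α i = 1} : ℕ) := by unfold ks; rw [if_pos hl]
        rw [this]
      · rw [hsup l hl, Real.sqrt_zero, mul_zero, mul_zero]
    calc (√(g l) - √(ks α r l)) ^ 2 = √(g l) ^ 2 + √(ks α r l) ^ 2 -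
          2 * (√(ks α r l) * √(g l)) := by ring
      _ = _ := by rw [e1, e2, e3]; ring
  simp only [h1]
  rw [Finset.sum_sub_distrib, Finset.sum_add_distrib, hs, ks_sum hM, ← Finset.mul_sum]
  ring

theorem we_h1 (hα : ∀ l, α l ≤ 1) (hM : ∃ l, α l = 1) {g : Fin 3 → ℝ} (hg : g ∈ We α r)
    (hg0 : ∀ l, 0 ≤ g l) : ∑ l, ks α r l ≤ ∑ l, g l := by
  rw [ks_sum hM]
  refine le_trans hg (Finset.sum_le_sum fun l _ => ?_)
  have := mul_le_mul_of_nonneg_right (hα l) (hg0 l)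
  linarith

theorem we_h2 (hα : ∀ l, α l ≤ 1) (hM : ∃ l, α l = 1) (hr : 0 < r) {g : Fin 3 → ℝ}
    (hg : g ∈ We α r) (hg0 : ∀ l, 0 ≤ g l) (hs : ∑ l, g l = ∑ l, ks α r l) :
    ∑ l, √(g l) ≤ ∑ l, √(ks α r l) := by
  rw [ks_sum hM] at hs
  have hm := card_pos' hM
  have h1 := dist_sq hM hr hg0 hs (supp hα hg hg0 hs)
  have h2 : 0 ≤ ∑ l, (√(g l) - √(ks α r l)) ^ 2 := Finset.sum_nonneg fun _ _ => sq_nonneg _
  rw [ks_sqrt hM hr]
  obtain ⟨m, hm'⟩ : ∃ m : ℝ, m = (#{i | α i = 1} : ℕ) := ⟨_, rfl⟩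
  rw [← hm'] at h1 hm ⊢
  have h3 : 0 < √(r / m) := Real.sqrt_pos.2 (by positivity)
  have h4 : √(r / m) * √(m * r) = r := by
    rw [← Real.sqrt_mul (by positivity), show r / m * (m * r) = r * r by field_simp,
      Real.sqrt_mul_self hr.le]
  have h5 : √(r / m) * ∑ l, √(g l) ≤ √(r / m) * √(m * r) := by linarith
  exact le_of_mul_le_mul_left h5 h3

theorem we_h3 (hα : ∀ l, α l ≤ 1) (hM : ∃ l, α l = 1) (hr : 0 < r) {g : Fin 3 → ℝ}
    (hg : g ∈ We α r) (hg0 : ∀ l, 0 ≤ g l) (hs : ∑ l, g l = ∑ l, ks α r l)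
    (hq : ∑ l, √(g l) = ∑ l, √(ks α r l)) : g = ks α r := by
  rw [ks_sum hM] at hs
  have hm := card_pos' hM
  have h1 := dist_sq hM hr hg0 hs (supp hα hg hg0 hs)
  rw [hq, ks_sqrt hM hr] at h1
  obtain ⟨m, hm'⟩ : ∃ m : ℝ, m = (#{i | α i = 1} : ℕ) := ⟨_, rfl⟩
  rw [← hm'] at h1 hm
  have h4 : √(r / m) * √(m * r) = r := by
    rw [← Real.sqrt_mul (by positivity), show r / m * (m * r) = r * r by field_simp,
      Real.sqrt_mul_self hr.le]
  have h5 : ∑ l, (√(g l) - √(ks α r l)) ^ 2 = 0 := by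
    rw [h1]
    linarith
  ext l
  have h6 := (Finset.sum_eq_zero_iff_of_nonneg (fun l _ => sq_nonneg _)).1 h5 l (mem_univ l)
  have h7 : √(g l) = √(ks α r l) := by
    have := pow_eq_zero_iff (two_ne_zero) |>.1 h6
    linarith
  rw [← Real.sq_sqrt (hg0 l), h7, Real.sq_sqrt (ks0 hr l)]

theorem we_box (hα : ∀ l, 0 ≤ α l) (hM : ∃ l, α l = 1) {g : Fin 3 → ℝ}
    (hg : ∀ l, ks α r l ≤ g l) : g ∈ We α r := by
  have h1 : ∑ l, α l * ks α r l = r := by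
    refine Eq.trans (Finset.sum_congr rfl fun l _ => ?_) (ks_sum (r := r) hM)
    by_cases hl : α l = 1
    · rw [hl, one_mul]
    · unfold ks
      rw [if_neg hl, mul_zero]
  show r ≤ ∑ l, α l * g l
  rw [← h1]
  exact Finset.sum_le_sum fun l _ => mul_le_mul_of_nonneg_left (hg l) (hα l)

end

/-- the number of triples with a weighted inequality -/
theorem wts {α : Fin 3 → ℝ} (hα0 : ∀ l, 0 ≤ α l) (hα1 : ∀ l, α l ≤ 1) (hM : ∃ l, α l = 1)
    {r : ℝ} (hr : 0 < r) (hr1 : r < 1) :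
    Tendsto (fun X : ℝ => (Real.log ((TS (We α r) (Real.exp X)).ncard : ℝ) - (2 - r) * X) /
      √(X / Real.log X)) atTop (𝓝 √(8 * (#{i | α i = 1} : ℕ) * r)) := by
  have h := ups (we_closed α r) (κ := ks α r) (ks0 hr) (by rw [ks_sum hM]; exact hr)
    (by rw [ks_sum hM]; exact hr1) one_pos (fun g hg => we_box hα0 hM fun l => (hg l).1)
    (fun g hg g0 _ => we_h1 hα1 hM hg g0) (fun g hg g0 _ hs => we_h2 hα1 hM hr hg g0 hs)
  rw [ks_sum hM, ks_sqrt hM hr, ← Real.sqrt_mul (by norm_num), ← mul_assoc] at h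
  exact h

/-- the typical structure -/
theorem wts_conc {α : Fin 3 → ℝ} (hα0 : ∀ l, 0 ≤ α l) (hα1 : ∀ l, α l ≤ 1) (hM : ∃ l, α l = 1)
    {r : ℝ} (hr : 0 < r) (hr1 : r < 1) {η : ℝ} (hη : 0 < η) :
    ∃ δ : ℝ, 0 < δ ∧ ∃ X₀ : ℝ, 1 < X₀ ∧ ∀ X : ℝ, X₀ ≤ X →
      ((TS (We α r \ {g | ∀ l, |g l - ks α r l| < η}) (Real.exp X)).ncard : ℝ) ≤
        Real.exp (-(δ * √(X / Real.log X))) * ((TS (We α r) (Real.exp X)).ncard : ℝ) := by
  refine conc (we_closed α r) (κ := ks α r) (ks0 hr) (by rw [ks_sum hM]; exact hr)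
    (by rw [ks_sum hM]; exact hr1) one_pos (fun g hg => we_box hα0 hM fun l => (hg l).1)
    (fun g hg g0 _ => we_h1 hα1 hM hg g0) (fun g hg g0 _ hs => we_h2 hα1 hM hr hg g0 hs)
    ?_ (fun g hg g0 _ hs hq => ?_)
  · have e : {g : Fin 3 → ℝ | ∀ l, |g l - ks α r l| < η} =
        ⋂ l, {g : Fin 3 → ℝ | |g l - ks α r l| < η} := by
      ext g
      simp
    rw [e]
    exact isOpen_iInter_of_finite fun l => isOpen_lt (by fun_prop) continuous_const
  · rw [we_h3 hα1 hM hr hg g0 hs hq]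
    intro l
    rw [sub_self, abs_zero]
    exact hη

end Run7.h585.LD
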